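import Pool.Agent.Helper10.AB.GoalsF2

/-! AB FM MAP: the change of variables. -/

open MeasureTheory Set Filter Topology
open scoped ContDiff

noncomputable section

namespace Pool.Agent.Helper93.AB

open Pool.Agent.Helper24.AB Pool.Agent.Helper10.AB
open Pool.Agent.Helper15.AB (S_XI S_ATL XiI)

namespace MAP

/-! ## The identification of `ℂ⁴` with `(ℂ × ℝ³) × ℝ³` -/

abbrev R3 : Type := Fin 3 → ℝ

/-- the identification -/
def psi (q : YY × R3) : V4 :=
  ![⟨q.1.2 0, q.2 0⟩, ⟨q.1.2 1, q.2 1⟩, ⟨q.1.2 2, q.2 2⟩, q.1.1]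

/-- the identification, other direction -/
def eqv : V4 ≃ᵐ YY × R3 :=
  ((MeasurableEquiv.piFinSuccAbove (fun _ : Fin 4 => ℂ) 3).trans
    ((MeasurableEquiv.refl ℂ).prodCongr
      ((MeasurableEquiv.piCongrRight fun _ : Fin 3 => Complex.measurableEquivRealProd).trans
        (MeasurableEquiv.arrowProdEquivProdArrow ℝ ℝ (Fin 3))))).trans
    MeasurableEquiv.prodAssoc.symm

theorem mp_eqv : MeasurePreserving eqv (volume : Measure V4) volume := by
  have h1 : MeasurePreserving (MeasurableEquiv.piFinSuccAbove (fun _ : Fin 4 => ℂ) 3) :=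
    volume_preserving_piFinSuccAbove (fun _ : Fin 4 => ℂ) 3
  have h2 : MeasurePreserving
      (MeasurableEquiv.piCongrRight fun _ : Fin 3 => Complex.measurableEquivRealProd) :=
    volume_preserving_pi fun _ => Complex.volume_preserving_equiv_real_prod
  have h3 : MeasurePreserving (MeasurableEquiv.arrowProdEquivProdArrow ℝ ℝ (Fin 3)) :=
    volume_measurePreserving_arrowProdEquivProdArrow ℝ ℝ (Fin 3)
  have h4 : MeasurePreserving (MeasurableEquiv.prodAssoc : (ℂ × R3) × R3 ≃ᵐ ℂ × R3 × R3) :=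
    volume_preserving_prodAssoc
  have h5 : MeasurePreserving ((MeasurableEquiv.refl ℂ).prodCongr
      ((MeasurableEquiv.piCongrRight fun _ : Fin 3 => Complex.measurableEquivRealProd).trans
        (MeasurableEquiv.arrowProdEquivProdArrow ℝ ℝ (Fin 3)))) :=
    (MeasurePreserving.id volume).prod (h3.comp h2)
  exact h4.symm.comp (h5.comp h1)

theorem eqv_apply (P : V4) : eqv P =
    ((P 3, fun i => (P (Fin.succAbove 3 i)).re), fun i => (P (Fin.succAbove 3 i)).im) := rfl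

theorem eqv_psi (q : YY × R3) : eqv (psi q) = q := by
  rw [eqv_apply]
  refine Prod.ext (Prod.ext rfl ?_) ?_
  · funext i
    fin_cases i <;> rfl
  · funext i
    fin_cases i <;> rfl

theorem psi_eq : psi = eqv.symm := by
  funext q
  rw [← eqv_psi q, MeasurableEquiv.symm_apply_apply, eqv_psi]

theorem mp_psi : MeasurePreserving psi (volume : Measure (YY × R3)) volume := by
  rw [psi_eq]
  exact mp_eqv.symm

theorem emb_psi : MeasurableEmbedding psi := by
  rw [psi_eq]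
  exact eqv.symm.measurableEmbedding

/-! ## The fibre map -/

/-- the matrix of the fibre map -/
def Mx (c1 c2 A : ℝ) : Matrix (Fin 3) (Fin 3) ℝ :=
  !![ph * c1, ph' * c2, 0; c1, c2, 0; 0, 0, 2 * A]

theorem det_Mx (c1 c2 A : ℝ) : (Mx c1 c2 A).det = 2 * Real.sqrt 5 * c1 * c2 * A := by
  rw [Mx, Matrix.det_fin_three]
  simp [ph, ph']
  ring

/-- the fibre map -/
def gm (c1 c2 A : ℝ) (b : R3) (ζ : R3) : R3 := Matrix.toLin' (Mx c1 c2 A) ζ + b

theorem gm_map {c1 c2 A : ℝ} (h : (Mx c1 c2 A).det ≠ 0) (b : R3) :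
    Measure.map (gm c1 c2 A b) volume = ENNReal.ofReal |((Mx c1 c2 A).det)⁻¹| • volume := by
  have e : gm c1 c2 A b = (fun x => x + b) ∘ Matrix.toLin' (Mx c1 c2 A) := rfl
  have hm : Measurable (Matrix.toLin' (Mx c1 c2 A)) :=
    (LinearMap.continuous_of_finiteDimensional _).measurable
  rw [e, ← Measure.map_map (measurable_add_const b) hm,
    Real.map_matrix_volume_pi_eq_smul_volume_pi h, Measure.map_smul,
    (measurePreserving_add_right volume b).map_eq]

theorem gm_inj {c1 c2 A : ℝ} (h : (Mx c1 c2 A).det ≠ 0) (b : R3) :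
    Function.Injective (gm c1 c2 A b) := by
  intro x y hxy
  have h1 : Matrix.toLin' (Mx c1 c2 A) x = Matrix.toLin' (Mx c1 c2 A) y := add_right_cancel hxy
  rw [Matrix.toLin'_apply, Matrix.toLin'_apply] at h1
  exact Matrix.mulVec_injective_of_isUnit ((Matrix.isUnit_iff_isUnit_det _).2 h.isUnit) h1

theorem gm_cont (c1 c2 A : ℝ) (b : R3) : Continuous (gm c1 c2 A b) :=
  (LinearMap.continuous_of_finiteDimensional (Matrix.toLin' (Mx c1 c2 A))).add continuous_const

theorem gm_emb {c1 c2 A : ℝ} (h : (Mx c1 c2 A).det ≠ 0) (b : R3) :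
    MeasurableEmbedding (gm c1 c2 A b) := (gm_cont c1 c2 A b).measurableEmbedding (gm_inj h b)

theorem gm_apply (c1 c2 A : ℝ) (b ζ : R3) : gm c1 c2 A b ζ =
    ![ph * c1 * ζ 0 + ph' * c2 * ζ 1 + b 0, c1 * ζ 0 + c2 * ζ 1 + b 1, 2 * A * ζ 2 + b 2] := by
  funext i
  change (Matrix.toLin' (Mx c1 c2 A) ζ) i + b i = _
  rw [Matrix.toLin'_apply, Mx]
  fin_cases i <;> simp [Matrix.mulVec, dotProduct, Fin.sum_univ_three]

theorem kJ_eq (a A : ℝ) (s : ℝ → ℝ) (w : ℂ) :
    (Mx (Real.exp (kap * w.im) * Real.sqrt (Atl a A s w.re))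
      (Real.exp (-(kap * w.im)) * (2 * A)) A).det = kJ a A s w.re := by
  rw [det_Mx, kJ, Real.exp_neg]
  have h := (Real.exp_pos (kap * w.im)).ne'
  field_simp
  ring

/-- the constant part of the fibre map -/
def bv (A : ℝ) (p : ℂ → ℝ) (w : ℂ) : R3 :=
  ![ph * (Real.exp (kap * w.im) * A - p w), Real.exp (kap * w.im) * A - p w, 0]

theorem XX_eq (a A : ℝ) (s : ℝ → ℝ) (p : ℂ → ℝ) (w : ℂ) : (fun ζ => XX a A s p (w, ζ)) =
    gm (Real.exp (kap * w.im) * Real.sqrt (Atl a A s w.re))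
      (Real.exp (-(kap * w.im)) * (2 * A)) A (bv A p w) := by
  funext ζ
  rw [gm_apply]
  funext i
  fin_cases i
  · change ph * (Real.exp (kap * w.im) * (A + Real.sqrt (Atl a A s w.re) * ζ 0) - p w) +
      ph' * (Real.exp (-(kap * w.im)) * (2 * A * ζ 1)) =
      ph * (Real.exp (kap * w.im) * Real.sqrt (Atl a A s w.re)) * ζ 0 +
        ph' * (Real.exp (-(kap * w.im)) * (2 * A)) * ζ 1 +
        ph * (Real.exp (kap * w.im) * A - p w)
    ring
  · change (Real.exp (kap * w.im) * (A + Real.sqrt (Atl a A s w.re) * ζ 0) - p w) +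
      Real.exp (-(kap * w.im)) * (2 * A * ζ 1) =
      (Real.exp (kap * w.im) * Real.sqrt (Atl a A s w.re)) * ζ 0 +
        (Real.exp (-(kap * w.im)) * (2 * A)) * ζ 1 +
        (Real.exp (kap * w.im) * A - p w)
    ring
  · change 2 * A * ζ 2 = 2 * A * ζ 2 + 0
    ring

section
variable {a A δ₀ ρ₀ : ℝ} {s : ℝ → ℝ} {p : ℂ → ℝ} {B : BlockData}

theorem kJ_pos (hATL : S_ATL) (hD : Dat a A δ₀ ρ₀ s p B) (x : ℝ) : 0 < kJ a A s x := by
  have h1 := (hATL a A s hD.prof).2.1 x
  have h2 := hD.prof.A_pos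
  unfold kJ
  positivity

theorem mem_Gw (hEQV : S_EQV) (hD : Dat a A δ₀ ρ₀ s p B) {w : ℂ} (hw : w ∈ strip a) (ζ : R3) :
    XX a A s p (w, ζ) ∈ Gw a A s p w ↔ ζ ∈ Bs a w.re := by
  have h := (hEQV a A δ₀ ρ₀ s p B hD).2.2.2.2.1 (w, ζ) 0
  have e : Pt a A s p (w, ζ) 0 = (![(XX a A s p (w, ζ) 0 : ℂ), (XX a A s p (w, ζ) 1 : ℂ),
      (XX a A s p (w, ζ) 2 : ℂ), w] : V4) := by
    rw [(hEQV a A δ₀ ρ₀ s p B hD).2.2.2.2.2.2.2.1 (w, ζ) 0]
    funext i
    fin_cases i <;> rfl
  rw [e] at h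
  refine Iff.trans h ⟨fun h => h.2, fun h => ⟨hw, h⟩⟩

theorem fib (hATL : S_ATL) (hEQV : S_EQV) (hD : Dat a A δ₀ ρ₀ s p B) {w : ℂ}
    (hw : w ∈ strip a) : MeasurableEmbedding (fun ζ => XX a A s p (w, ζ)) ∧
    ENNReal.ofReal (kJ a A s w.re) •
      Measure.map (fun ζ => XX a A s p (w, ζ)) (volume.restrict (Bs a w.re)) =
      volume.restrict (Gw a A s p w) := by
  have hk := kJ_pos hATL hD w.re
  have hd : (Mx (Real.exp (kap * w.im) * Real.sqrt (Atl a A s w.re))
      (Real.exp (-(kap * w.im)) * (2 * A)) A).det ≠ 0 := by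
    rw [kJ_eq]
    exact hk.ne'
  have hemb : MeasurableEmbedding (fun ζ => XX a A s p (w, ζ)) := by
    rw [XX_eq]
    exact gm_emb hd _
  refine ⟨hemb, ?_⟩
  have hpre : (fun ζ => XX a A s p (w, ζ)) ⁻¹' (Gw a A s p w) = Bs a w.re := by
    ext ζ
    exact mem_Gw hEQV hD hw ζ
  have hmap : Measure.map (fun ζ => XX a A s p (w, ζ)) volume =
      ENNReal.ofReal |(kJ a A s w.re)⁻¹| • volume := by
    rw [XX_eq, gm_map hd, kJ_eq]
  have h1 := hemb.restrict_map volume (Gw a A s p w)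
  rw [hpre, hmap, Measure.restrict_smul] at h1
  rw [← h1, smul_smul, ← ENNReal.ofReal_mul hk.le, abs_of_pos (inv_pos.2 hk),
    mul_inv_cancel₀ hk.ne', ENNReal.ofReal_one, one_smul]

theorem part2 (hATL : S_ATL) (hEQV : S_EQV) (hD : Dat a A δ₀ ρ₀ s p B)
    (F : (Fin 3 → ℝ) → ℝ) {w : ℂ} (hw : w ∈ strip a) :
    ∫ X in Gw a A s p w, F X = ∫ ζ in Bs a w.re, kJ a A s w.re * F (XX a A s p (w, ζ)) := by
  obtain ⟨hemb, h⟩ := fib hATL hEQV hD hw
  rw [← h, integral_smul_measure, hemb.integral_map, integral_const_mul,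
    ENNReal.toReal_ofReal (kJ_pos hATL hD w.re).le, smul_eq_mul]

/-! ## Measurability -/

theorem mes_XX (a A : ℝ) (s : ℝ → ℝ) {p : ℂ → ℝ} (hA : Measurable (Atl a A s))
    (hp : Measurable p) : Measurable (XX a A s p) := by
  have h1 : Measurable fun y : YY => Atl a A s y.1.re := hA.comp (by fun_prop)
  have h2 : Measurable fun y : YY => p y.1 := hp.comp measurable_fst
  refine measurable_pi_iff.2 fun i => ?_
  fin_cases i
  · change Measurable fun y : YY => ph * (Real.exp (kap * y.1.im) *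
      (A + Real.sqrt (Atl a A s y.1.re) * y.2 0) - p y.1) +
      ph' * (Real.exp (-(kap * y.1.im)) * (2 * A * y.2 1))
    fun_prop
  · change Measurable fun y : YY => (Real.exp (kap * y.1.im) *
      (A + Real.sqrt (Atl a A s y.1.re) * y.2 0) - p y.1) +
      Real.exp (-(kap * y.1.im)) * (2 * A * y.2 1)
    fun_prop
  · change Measurable fun y : YY => 2 * A * y.2 2
    fun_prop

theorem mes_strip (a : ℝ) : MeasurableSet (strip a) :=
  (isOpen_lt (continuous_abs.comp Complex.continuous_re) continuous_const).measurableSet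

theorem mes_cell (a : ℝ) : MeasurableSet (cell a) := by
  have h1 : MeasurableSet {w : ℂ | |w.re| < a} := mes_strip a
  have h2 : MeasurableSet {w : ℂ | 0 ≤ w.im} := measurableSet_le measurable_const (by fun_prop)
  have h3 : MeasurableSet {w : ℂ | w.im < 2 * Real.pi} :=
    measurableSet_lt (by fun_prop) measurable_const
  exact h1.inter (h2.inter h3)

theorem mes_YS (a : ℝ) {S : Set ℂ} (hS : MeasurableSet S) : MeasurableSet (YS a S) := by
  have h1 : MeasurableSet {y : YY | y.1 ∈ S} := measurable_fst hS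
  have h2 : MeasurableSet {y : YY | y.2 0 ^ 2 + y.2 1 ^ 2 + y.2 2 ^ 2 < a ^ 2 - y.1.re ^ 2} :=
    measurableSet_lt (by fun_prop) (by fun_prop)
  exact h1.inter h2

/-- the domain as a set of pairs -/
def VV (a A : ℝ) (s : ℝ → ℝ) (p : ℂ → ℝ) : Set YY := {y | y.1 ∈ cell a ∧ y.2 ∈ Gw a A s p y.1}

/-- the defining function -/
def rY (a A : ℝ) (s : ℝ → ℝ) (p : ℂ → ℝ) (y : YY) : ℝ :=
  (Real.exp (-(kap * y.1.im)) * ((y.2 0 - ph' * y.2 1) / Real.sqrt 5 + p y.1) - A) ^ 2 /
      Atl a A s y.1.re +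
    ((Real.exp (kap * y.1.im) * ((ph * y.2 1 - y.2 0) / Real.sqrt 5)) ^ 2 + y.2 2 ^ 2) /
      (4 * A ^ 2) - (a ^ 2 - y.1.re ^ 2)

theorem rY_eq (a A : ℝ) (s : ℝ → ℝ) (p : ℂ → ℝ) (y : YY) (θ : R3) :
    rfun a A s p (psi (y, θ)) = rY a A s p y := rfl

theorem rY_eq' (a A : ℝ) (s : ℝ → ℝ) (p : ℂ → ℝ) (y : YY) :
    rfun a A s p (![(y.2 0 : ℂ), (y.2 1 : ℂ), (y.2 2 : ℂ), y.1] : V4) = rY a A s p y := rfl

theorem mem_VV {p' : ℂ → ℝ} (hp : ∀ w ∈ strip a, p' w = p w) (ha : 0 < a) (y : YY) :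
    y ∈ VV a A s p ↔ y.1 ∈ cell a ∧ rY a A s p' y < 0 := by
  have h0 : y.1 ∈ cell a → p' y.1 = p y.1 := fun h => hp _ h.1
  have h1 : y.1 ∈ cell a → |y.1.re| < 3 * a / 2 := fun h => by
    have := h.1
    linarith
  have h2 : y.1 ∈ cell a → rY a A s p' y = rY a A s p y := fun h => by
    rw [rY, rY, h0 h]
  constructor
  · rintro ⟨h3, h4, h5⟩
    refine ⟨h3, ?_⟩
    rw [h2 h3]
    exact h5
  · rintro ⟨h3, h5⟩
    refine ⟨h3, h1 h3, ?_⟩
    rw [h2 h3] at h5
    exact h5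

theorem mes_VV (hA : Measurable (Atl a A s)) {p' : ℂ → ℝ} (hp' : Measurable p')
    (hp : ∀ w ∈ strip a, p' w = p w) (ha : 0 < a) : MeasurableSet (VV a A s p) := by
  have e : VV a A s p = {y : YY | y.1 ∈ cell a} ∩ {y : YY | rY a A s p' y < 0} := by
    ext y
    exact mem_VV hp ha y
  rw [e]
  have h1 : Measurable fun y : YY => Atl a A s y.1.re := hA.comp (by fun_prop)
  have h2 : Measurable fun y : YY => p' y.1 := hp'.comp measurable_fst
  refine (measurable_fst (mes_cell a)).inter (measurableSet_lt ?_ measurable_const)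
  unfold rY
  fun_prop

theorem pre_Fund (hATL : S_ATL) (hD : Dat a A δ₀ ρ₀ s p B) :
    psi ⁻¹' (Fund a A s p) = VV a A s p ×ˢ T3 := by
  have ha := hD.prof.a_pos
  ext q
  obtain ⟨y, θ⟩ := q
  constructor
  · rintro ⟨⟨h1, h2⟩, h3⟩
    have h1' : |y.1.re| < 3 * a / 2 := h1
    have h2' : rY a A s p y < 0 := h2
    have h4 : |y.1.re| < a := by
      have e1 := (hATL a A s hD.prof).2.1 y.1.re
      have e2 := hD.prof.A_pos
      have e3 : 0 ≤ (Real.exp (-(kap * y.1.im)) * ((y.2 0 - ph' * y.2 1) / Real.sqrt 5 + p y.1) -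
        A) ^ 2 / Atl a A s y.1.re := by positivity
      have e4 : 0 ≤ ((Real.exp (kap * y.1.im) * ((ph * y.2 1 - y.2 0) / Real.sqrt 5)) ^ 2 +
        y.2 2 ^ 2) / (4 * A ^ 2) := by positivity
      rw [rY] at h2'
      have e5 : y.1.re ^ 2 < a ^ 2 := by linarith
      exact abs_lt_of_sq_lt_sq e5 ha.le
    refine ⟨⟨⟨h4, (h3 3).1, (h3 3).2⟩, h1', h2'⟩, fun i _ => ?_⟩
    fin_cases i
    · exact h3 0
    · exact h3 1
    · exact h3 2
  · rintro ⟨⟨⟨h1, h2, h3⟩, h4, h5⟩, h6⟩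
    refine ⟨⟨h4, h5⟩, fun i => ?_⟩
    fin_cases i
    · exact h6 0 (mem_univ _)
    · exact h6 1 (mem_univ _)
    · exact h6 2 (mem_univ _)
    · exact ⟨h2, h3⟩

/-! ## The skew product -/

/-- the skew product -/
def SS (a A : ℝ) (s : ℝ → ℝ) (p : ℂ → ℝ) (y : YY) : YY := (y.1, XX a A s p y)

theorem XX_congr {p' : ℂ → ℝ} (hp : ∀ w ∈ strip a, p' w = p w) {w : ℂ} (hw : w ∈ strip a)
    (ζ : R3) : XX a A s p' (w, ζ) = XX a A s p (w, ζ) := by
  unfold XX
  rw [hp w hw]

theorem map_SS (hATL : S_ATL) (hEQV : S_EQV) (hD : Dat a A δ₀ ρ₀ s p B) {p' : ℂ → ℝ}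
    (hp' : Measurable p') (hp : ∀ w ∈ strip a, p' w = p w) :
    Measure.map (SS a A s p') (muY a A s (cell a)) = volume.restrict (VV a A s p) := by
  have hAc : Measurable (Atl a A s) := (hATL a A s hD.prof).1.continuous.measurable
  have hS : Measurable (SS a A s p') := measurable_fst.prodMk (mes_XX a A s hAc hp')
  have hV := mes_VV (A := A) (s := s) hAc hp' hp hD.prof.a_pos
  have hY : MeasurableSet (YS a (cell a)) := mes_YS a (mes_cell a)
  have hk : Measurable fun y : YY => ENNReal.ofReal (kJ a A s y.1.re) := by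
    have h1 : Measurable fun y : YY => Atl a A s y.1.re := hAc.comp (by fun_prop)
    unfold kJ
    fun_prop
  refine Measure.ext fun E hE => ?_
  have hSE := hS hE
  rw [Measure.map_apply hS hE, muY, withDensity_apply _ hSE, Measure.restrict_restrict hSE,
    ← lintegral_indicator (hSE.inter hY), Measure.restrict_apply hE, Measure.volume_eq_prod,
    lintegral_prod _ (hk.indicator (hSE.inter hY)).aemeasurable,
    Measure.prod_apply (hE.inter hV)]
  refine lintegral_congr fun w => ?_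
  by_cases hw : w ∈ cell a
  · have hws : w ∈ strip a := hw.1
    obtain ⟨hemb, hf⟩ := fib hATL hEQV hD hws
    have hEw : MeasurableSet (Prod.mk w ⁻¹' E) := measurable_prodMk_left hE
    have hBs : MeasurableSet (Bs a w.re) := by
      have h := mes_YS a (mes_cell a)
      have h2 : Bs a w.re = Prod.mk w ⁻¹' (YS a (cell a)) := by
        ext ζ
        exact ⟨fun h => ⟨hw, h⟩, fun h => h.2⟩
      rw [h2]
      exact measurable_prodMk_left h
    have e1 : ∀ ζ : R3, (SS a A s p' ⁻¹' E ∩ YS a (cell a)).indicator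
        (fun y : YY => ENNReal.ofReal (kJ a A s y.1.re)) (w, ζ) =
        ((fun ζ => XX a A s p (w, ζ)) ⁻¹' (Prod.mk w ⁻¹' E) ∩ Bs a w.re).indicator
          (fun _ => ENNReal.ofReal (kJ a A s w.re)) ζ := by
      intro ζ
      have e2 : (w, ζ) ∈ SS a A s p' ⁻¹' E ∩ YS a (cell a) ↔
          ζ ∈ (fun ζ => XX a A s p (w, ζ)) ⁻¹' (Prod.mk w ⁻¹' E) ∩ Bs a w.re := by
        constructor
        · rintro ⟨h1, h2⟩
          refine ⟨?_, h2.2⟩
          have h3 : (w, XX a A s p' (w, ζ)) ∈ E := h1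
          rw [XX_congr hp hws] at h3
          exact h3
        · rintro ⟨h1, h2⟩
          refine ⟨?_, hw, h2⟩
          have h3 : (w, XX a A s p (w, ζ)) ∈ E := h1
          rw [← XX_congr hp hws] at h3
          exact h3
      by_cases h : ζ ∈ (fun ζ => XX a A s p (w, ζ)) ⁻¹' (Prod.mk w ⁻¹' E) ∩ Bs a w.re
      · rw [indicator_of_mem h, indicator_of_mem (e2.2 h)]
      · rw [indicator_of_notMem h, indicator_of_notMem fun h' => h (e2.1 h')]
    have e3 : Prod.mk w ⁻¹' (E ∩ VV a A s p) = (Prod.mk w ⁻¹' E) ∩ Gw a A s p w := by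
      ext X
      exact ⟨fun h => ⟨h.1, h.2.2⟩, fun h => ⟨h.1, hw, h.2⟩⟩
    simp only [e1]
    rw [lintegral_indicator ((hemb.measurable hEw).inter hBs), setLIntegral_const, e3,
      ← Measure.restrict_apply hEw, ← hf, Measure.smul_apply, smul_eq_mul,
      Measure.map_apply hemb.measurable hEw, Measure.restrict_apply (hemb.measurable hEw)]
  · have e1 : ∀ ζ : R3, (SS a A s p' ⁻¹' E ∩ YS a (cell a)).indicator
        (fun y : YY => ENNReal.ofReal (kJ a A s y.1.re)) (w, ζ) = 0 := fun ζ =>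
      indicator_of_notMem (fun h => hw h.2.1) _
    have e3 : Prod.mk w ⁻¹' (E ∩ VV a A s p) = ∅ := by
      ext X
      exact ⟨fun h => (hw h.2.1).elim, fun h => h.elim⟩
    simp only [e1]
    rw [lintegral_zero, e3, measure_empty]

theorem Pt_eq (a A : ℝ) (s : ℝ → ℝ) (p : ℂ → ℝ) (y : YY) (θ : R3) :
    Pt a A s p y θ = psi (SS a A s p y, θ) := by
  unfold Pt Xi psi SS XX
  funext i
  fin_cases i <;> rfl

theorem part1 (hATL : S_ATL) (hEQV : S_EQV) (hD : Dat a A δ₀ ρ₀ s p B) :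
    AEMeasurable (fun q : YY × (Fin 3 → ℝ) => Pt a A s p q.1 q.2)
      ((muY a A s (cell a)).prod (volume.restrict T3)) ∧
    Measure.map (fun q : YY × (Fin 3 → ℝ) => Pt a A s p q.1 q.2)
      ((muY a A s (cell a)).prod (volume.restrict T3)) = volume.restrict (Fund a A s p) := by
  classical
  obtain ⟨p', hp', hp⟩ : ∃ p' : ℂ → ℝ, Measurable p' ∧ ∀ w ∈ strip a, p' w = p w := by
    refine ⟨(strip a).piecewise p 0, ?_, fun w hw => piecewise_eq_of_mem _ _ _ hw⟩
    refine ContinuousOn.measurable_piecewise ?_ continuousOn_const (mes_strip a)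
    refine hD.pot.smooth.continuousOn.mono fun w hw => ?_
    have h1 : |w.re| < a := hw
    have h2 := hD.prof.a_pos
    change |w.re| < 3 * a / 2
    linarith
  have hAc : Measurable (Atl a A s) := (hATL a A s hD.prof).1.continuous.measurable
  have hS : Measurable (SS a A s p') := measurable_fst.prodMk (mes_XX a A s hAc hp')
  have hY : MeasurableSet (YS a (cell a)) := mes_YS a (mes_cell a)
  haveI : SFinite (muY a A s (cell a)) := by
    unfold muY
    infer_instance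
  have hm : Measurable fun q : YY × R3 => psi (SS a A s p' q.1, q.2) :=
    mp_psi.measurable.comp ((hS.comp measurable_fst).prodMk measurable_snd)
  have hae0 : ∀ᵐ y ∂(muY a A s (cell a)), y ∈ YS a (cell a) := by
    have h1 : muY a A s (cell a) ≪ volume.restrict (YS a (cell a)) :=
      withDensity_absolutelyContinuous _ _
    exact h1.ae_le (ae_restrict_mem hY)
  have hae : (fun q : YY × R3 => Pt a A s p q.1 q.2) =ᵐ[(muY a A s (cell a)).prod
      (volume.restrict T3)] fun q => psi (SS a A s p' q.1, q.2) := by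
    have h1 : ∀ᵐ q ∂((muY a A s (cell a)).prod (volume.restrict T3)), q.1 ∈ YS a (cell a) :=
      Measure.quasiMeasurePreserving_fst.ae hae0
    filter_upwards [h1] with q hq
    have hq1 : q.1.1 ∈ strip a := hq.1.1
    rw [Pt_eq]
    have e : SS a A s p q.1 = SS a A s p' q.1 := by
      unfold SS
      rw [← XX_congr hp hq1 q.1.2]
    rw [e]
  refine ⟨⟨_, hm, hae⟩, ?_⟩
  rw [Measure.map_congr hae]
  have e1 : (fun q : YY × R3 => psi (SS a A s p' q.1, q.2)) = psi ∘ Prod.map (SS a A s p') id :=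
    rfl
  have e2 := Measure.map_prod_map (muY a A s (cell a)) (volume.restrict T3) hS
    (measurable_id (α := R3))
  rw [e1, ← Measure.map_map mp_psi.measurable (hS.prodMap measurable_id), ← e2,
    map_SS hATL hEQV hD hp' hp, Measure.map_id, Measure.prod_restrict, ← Measure.volume_eq_prod,
    ← pre_Fund hATL hD]
  exact (mp_psi.restrict_preimage_emb emb_psi (Fund a A s p)).map_eq

end

end MAP

open MAP in
theorem map (_ : S_XI) (hATL : S_ATL) (hEQV : S_EQV) : S_MAP :=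
  fun _ _ _ _ _ _ _ hD => ⟨part1 hATL hEQV hD, fun F _ hw => part2 hATL hEQV hD F hw⟩

end Pool.Agent.Helper93.AB
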