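import Pool.Agent.Helper10.AB.GoalsF1

/-! AB FM NICE: the class `Nice` and the operator `∂_t`. -/

open MeasureTheory Set Filter Topology
open scoped ContDiff

noncomputable section

namespace Pool.Agent.Helper93.AB

open Pool.Agent.Helper24.AB Pool.Agent.Helper10.AB

namespace NICE

abbrev EE : Type := (Fin 4 → ℝ) × (Fin 4 → ℝ)

theorem convex_Cyl (a : ℝ) : Convex ℝ (Cyl a) := by
  intro x hx y hy s t hs ht hst
  change ∑ i, (s • x + t • y).1 i ^ 2 ≤ a ^ 2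
  have hx' : ∑ i, x.1 i ^ 2 ≤ a ^ 2 := hx
  have hy' : ∑ i, y.1 i ^ 2 ≤ a ^ 2 := hy
  have h1 : ∀ i, (s • x + t • y).1 i ^ 2 ≤ s * x.1 i ^ 2 + t * y.1 i ^ 2 := by
    intro i
    have e : (s • x + t • y).1 i = s * x.1 i + t * y.1 i := rfl
    have e2 : s * x.1 i ^ 2 + t * y.1 i ^ 2 - (s * x.1 i + t * y.1 i) ^ 2 =
        s * t * (x.1 i - y.1 i) ^ 2 := by
      have : t = 1 - s := by linarith
      rw [this]
      ring
    have e3 : 0 ≤ s * t * (x.1 i - y.1 i) ^ 2 := by positivity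
    rw [e]
    linarith
  calc ∑ i, (s • x + t • y).1 i ^ 2 ≤ ∑ i, (s * x.1 i ^ 2 + t * y.1 i ^ 2) :=
        Finset.sum_le_sum fun i _ => h1 i
    _ = s * ∑ i, x.1 i ^ 2 + t * ∑ i, y.1 i ^ 2 := by
        rw [Finset.sum_add_distrib, Finset.mul_sum, Finset.mul_sum]
    _ ≤ s * a ^ 2 + t * a ^ 2 := by gcongr
    _ = a ^ 2 := by rw [← add_mul, hst, one_mul]

theorem unique_Cyl {a : ℝ} (ha : 0 < a) : UniqueDiffOn ℝ (Cyl a) := by
  refine uniqueDiffOn_convex (convex_Cyl a) ⟨0, ?_⟩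
  have ho : IsOpen {q : EE | (∑ i, q.1 i ^ 2) < a ^ 2} :=
    isOpen_lt (by fun_prop) continuous_const
  refine interior_maximal (s := Cyl a) (t := {q : EE | (∑ i, q.1 i ^ 2) < a ^ 2})
    (fun q hq => le_of_lt (show (∑ i, q.1 i ^ 2) < a ^ 2 from hq)) ho ?_
  change ∑ i : Fin 4, (0 : EE).1 i ^ 2 < a ^ 2
  simp
  positivity

theorem bound {a : ℝ} {g : EE → ℂ} (hg : ContinuousOn g (Cyl a)) (M : ℝ) :
    ∃ C, ∀ q ∈ Cyl a, (∀ i, |q.2 i| ≤ M) → ‖g q‖ ≤ C := by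
  have hc1 : IsCompact {ζ : Fin 4 → ℝ | ∑ i, ζ i ^ 2 ≤ a ^ 2} := by
    refine IsCompact.of_isClosed_subset (isCompact_Icc (a := fun _ : Fin 4 => -|a|)
      (b := fun _ => |a|)) (isClosed_le (by fun_prop) continuous_const) ?_
    intro ζ hζ
    have hζ' : ∑ i, ζ i ^ 2 ≤ a ^ 2 := hζ
    have h : ∀ i, |ζ i| ≤ |a| := fun i => by
      rw [← sq_le_sq]
      exact (Finset.single_le_sum (f := fun i => ζ i ^ 2) (fun i _ => sq_nonneg _)
        (Finset.mem_univ i)).trans hζ'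
    exact ⟨fun i => (abs_le.1 (h i)).1, fun i => (abs_le.1 (h i)).2⟩
  have hc2 : IsCompact ({ζ : Fin 4 → ℝ | ∑ i, ζ i ^ 2 ≤ a ^ 2} ×ˢ
      Icc (fun _ : Fin 4 => -M) (fun _ => M)) := hc1.prod isCompact_Icc
  obtain ⟨C, hC⟩ := hc2.exists_bound_of_continuousOn (hg.mono fun q hq => hq.1)
  exact ⟨C, fun q hq h => hC q ⟨hq, fun i => (abs_le.1 (h i)).1, fun i => (abs_le.1 (h i)).2⟩⟩

theorem cont_Dt {a : ℝ} {G : EE → ℂ} (ha : 0 < a) (hG : ContDiffOn ℝ ∞ G (Cyl a)) :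
    ContDiffOn ℝ ∞ (Dt a G) (Cyl a) :=
  (hG.fderivWithin (unique_Cyl ha) (by simp)).clm_apply contDiffOn_const

theorem hasDeriv_path (ζ : Fin 4 → ℝ) (θ : Fin 3 → ℝ) (t : ℝ) :
    HasDerivAt (fun t : ℝ => ((ζ, ![θ 0, θ 1, θ 2, t]) : EE)) (0, Pi.single 3 1) t := by
  refine (hasDerivAt_const t ζ).prodMk (hasDerivAt_pi.2 fun i => ?_)
  fin_cases i
  · exact hasDerivAt_const t (θ 0)
  · exact hasDerivAt_const t (θ 1)
  · exact hasDerivAt_const t (θ 2)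
  · exact hasDerivAt_id t

theorem slD {a : ℝ} {G : EE → ℂ} (hG : ContDiffOn ℝ ∞ G (Cyl a)) {ζ : Fin 4 → ℝ}
    (hζ : ∑ i, ζ i ^ 2 ≤ a ^ 2) (t : ℝ) (θ : Fin 3 → ℝ) :
    HasDerivAt (fun t => sl G ζ t θ) (sl (Dt a G) ζ t θ) t := by
  have h1 : ((ζ, ![θ 0, θ 1, θ 2, t]) : EE) ∈ Cyl a := hζ
  have h2 := ((hG.differentiableOn (by simp)) _ h1).hasFDerivWithinAt
  exact h2.comp_hasDerivAt t (hasDeriv_path ζ θ t) (Eventually.of_forall fun t => hζ)

theorem cont_sl {a : ℝ} {G : EE → ℂ} (hG : ContinuousOn G (Cyl a)) {ζ : Fin 4 → ℝ}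
    (hζ : ∑ i, ζ i ^ 2 ≤ a ^ 2) (t : ℝ) : Continuous (sl G ζ t) := by
  refine hG.comp_continuous (f := fun θ : Fin 3 → ℝ => ((ζ, ![θ 0, θ 1, θ 2, t]) : EE)) ?_
    fun θ => hζ
  refine continuous_const.prodMk (continuous_pi fun i => ?_)
  fin_cases i
  · exact continuous_apply 0
  · exact continuous_apply 1
  · exact continuous_apply 2
  · exact continuous_const

theorem meas_T3 : MeasurableSet T3 := MeasurableSet.univ_pi fun _ => measurableSet_Ico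

theorem vol_T3 : volume T3 ≠ ⊤ := by
  have h : T3 ⊆ Icc (fun _ : Fin 3 => (0 : ℝ)) (fun _ => 2 * Real.pi) := fun θ hθ =>
    ⟨fun i => (hθ i (mem_univ i)).1, fun i => (hθ i (mem_univ i)).2.le⟩
  exact ((measure_mono h).trans_lt isCompact_Icc.measure_lt_top).ne

theorem int_const_T3 (C : ℝ) : Integrable (fun _ : Fin 3 → ℝ => C) (volume.restrict T3) :=
  integrableOn_const vol_T3

/-- the exponential factor -/
def ex (J : Fin 3 → ℤ) (θ : Fin 3 → ℝ) : ℂ := Complex.exp (-(Complex.I * (Jd J θ : ℝ)))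

theorem norm_ex (J : Fin 3 → ℤ) (θ : Fin 3 → ℝ) : ‖ex J θ‖ = 1 := by
  rw [ex, Complex.norm_exp]
  simp

theorem cont_ex (J : Fin 3 → ℤ) : Continuous (ex J) := by
  unfold ex Jd
  fun_prop

theorem tm_eq (J : Fin 3 → ℤ) (φ : (Fin 3 → ℝ) → ℂ) :
    tm J φ = (((2 * Real.pi) ^ 3)⁻¹ : ℝ) * ∫ θ in T3, φ θ * ex J θ := rfl

theorem coord_bound {θ : Fin 3 → ℝ} (hθ : θ ∈ T3) {t t0 : ℝ} (ht : |t - t0| ≤ 1) (i : Fin 4) :
    |(![θ 0, θ 1, θ 2, t] : Fin 4 → ℝ) i| ≤ 2 * Real.pi + |t0| + 1 := by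
  have hp := Real.pi_pos
  have h0 := abs_nonneg t0
  have h : ∀ j : Fin 3, |θ j| ≤ 2 * Real.pi + |t0| + 1 := fun j => by
    have h1 := hθ j (mem_univ j)
    rw [abs_of_nonneg h1.1]
    linarith [h1.2]
  fin_cases i
  · exact h 0
  · exact h 1
  · exact h 2
  · change |t| ≤ _
    have e : t = (t - t0) + t0 := by ring
    have h2 : |t| ≤ |t - t0| + |t0| := by
      conv_lhs => rw [e]
      exact abs_add_le _ _
    linarith

theorem slice_bound {a : ℝ} {g : EE → ℂ} (hg : ContinuousOn g (Cyl a)) (t0 : ℝ) :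
    ∃ C, ∀ ζ : Fin 4 → ℝ, ∑ i, ζ i ^ 2 ≤ a ^ 2 → ∀ t, |t - t0| ≤ 1 → ∀ θ ∈ T3,
      ‖sl g ζ t θ‖ ≤ C := by
  obtain ⟨C, hC⟩ := bound hg (2 * Real.pi + |t0| + 1)
  exact ⟨C, fun ζ hζ t ht θ hθ => hC _ hζ fun i => coord_bound hθ ht i⟩

theorem deriv_tm {a : ℝ} {G : EE → ℂ} (ha : 0 < a) (hG : ContDiffOn ℝ ∞ G (Cyl a))
    {ζ : Fin 4 → ℝ} (hζ : ∑ i, ζ i ^ 2 ≤ a ^ 2) (J : Fin 3 → ℤ) (t : ℝ) :
    HasDerivAt (fun t => tm J (sl G ζ t)) (tm J (sl (Dt a G) ζ t)) t := by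
  have hD := cont_Dt ha hG
  obtain ⟨C, hC⟩ := slice_bound hD.continuousOn t
  have hG' := hG.continuousOn
  obtain ⟨C', hC'⟩ := slice_bound hG' t
  have hm : ∀ x, AEStronglyMeasurable (fun θ => sl G ζ x θ * ex J θ) (volume.restrict T3) :=
    fun x => ((cont_sl hG' hζ x).mul (cont_ex J)).aestronglyMeasurable
  have key := hasDerivAt_integral_of_dominated_loc_of_deriv_le (μ := volume.restrict T3)
    (F := fun x θ => sl G ζ x θ * ex J θ) (F' := fun x θ => sl (Dt a G) ζ x θ * ex J θ)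
    (x₀ := t) (s := Metric.closedBall t 1) (bound := fun _ => C)
    (Metric.closedBall_mem_nhds t one_pos) (Eventually.of_forall hm)
    (Integrable.mono' (int_const_T3 C') (hm t) (ae_restrict_of_forall_mem meas_T3 fun θ hθ => by
      rw [norm_mul, norm_ex, mul_one]
      exact hC' ζ hζ t (by simp) θ hθ))
    ((cont_sl hD.continuousOn hζ t).mul (cont_ex J)).aestronglyMeasurable
    (ae_restrict_of_forall_mem meas_T3 fun θ hθ x hx => by
      rw [norm_mul, norm_ex, mul_one]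
      exact hC ζ hζ x (by rwa [Metric.mem_closedBall, Real.dist_eq] at hx) θ hθ)
    (int_const_T3 C)
    (ae_restrict_of_forall_mem meas_T3 fun θ _ x _ => (slD hG hζ x θ).mul_const _)
  exact key.2.const_mul _

theorem cont_tm {a : ℝ} {G : EE → ℂ} (hG : ContinuousOn G (Cyl a)) (J : Fin 3 → ℤ) :
    ContinuousOn (fun q : (Fin 4 → ℝ) × ℝ => tm J (sl G q.1 q.2))
      {q | (∑ i, q.1 i ^ 2) ≤ a ^ 2} := by
  intro q0 hq0
  obtain ⟨C, hC⟩ := slice_bound hG q0.2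
  have key : ContinuousWithinAt (fun q : (Fin 4 → ℝ) × ℝ => ∫ θ in T3, sl G q.1 q.2 θ * ex J θ)
      {q | (∑ i, q.1 i ^ 2) ≤ a ^ 2} q0 := by
    refine continuousWithinAt_of_dominated (bound := fun _ => C) ?_ ?_ (int_const_T3 C) ?_
    · filter_upwards [self_mem_nhdsWithin] with q hq
      exact ((cont_sl hG hq q.2).mul (cont_ex J)).aestronglyMeasurable
    · have h1 : ∀ᶠ q : (Fin 4 → ℝ) × ℝ in 𝓝 q0, |q.2 - q0.2| ≤ 1 := by
        have h2 : Continuous fun q : (Fin 4 → ℝ) × ℝ => |q.2 - q0.2| := by fun_prop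
        exact (h2.continuousAt.eventually_lt continuousAt_const (by simp)).mono
          fun q hq => le_of_lt hq
      filter_upwards [self_mem_nhdsWithin, nhdsWithin_le_nhds h1] with q hq hq1
      refine ae_restrict_of_forall_mem meas_T3 fun θ hθ => ?_
      rw [norm_mul, norm_ex, mul_one]
      exact hC q.1 hq q.2 hq1 θ hθ
    · refine ae_restrict_of_forall_mem meas_T3 fun θ _ => ?_
      refine ContinuousWithinAt.mul ?_ continuousWithinAt_const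
      have h3 : Continuous fun q : (Fin 4 → ℝ) × ℝ => ((q.1, ![θ 0, θ 1, θ 2, q.2]) : EE) := by
        refine continuous_fst.prodMk (continuous_pi fun i => ?_)
        fin_cases i
        · exact continuous_const
        · exact continuous_const
        · exact continuous_const
        · exact continuous_snd
      have h4 : ((q0.1, ![θ 0, θ 1, θ 2, q0.2]) : EE) ∈ Cyl a := hq0
      exact ContinuousWithinAt.comp (f := fun q : (Fin 4 → ℝ) × ℝ =>
        ((q.1, ![θ 0, θ 1, θ 2, q.2]) : EE)) (hG _ h4) h3.continuousWithinAt fun q hq => hq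
  exact ContinuousWithinAt.mul continuousWithinAt_const key

end NICE

open NICE in
theorem nice : S_NICE := by
  intro a G ha hN
  refine ⟨⟨cont_Dt ha hN.smooth, fun ζ hζ t θ k => ?_, fun ζ hζ t θ => ?_⟩,
    fun ζ hζ J t => deriv_tm ha hN.smooth hζ J t, fun J => cont_tm hN.smooth.continuousOn J,
    fun ζ hζ t => ⟨cont_sl hN.smooth.continuousOn hζ t, fun θ k => hN.per ζ hζ t θ k⟩⟩
  · have h1 := slD hN.smooth hζ t (tr2 θ k)
    have h2 := slD hN.smooth hζ t θ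
    have e : (fun t => sl G ζ t (tr2 θ k)) = fun t => sl G ζ t θ :=
      funext fun t => hN.per ζ hζ t θ k
    rw [e] at h1
    exact h1.unique h2
  · have h1 := (slD hN.smooth hζ (t + 2 * Real.pi) (Q3 θ)).comp_add_const t (2 * Real.pi)
    have h2 := slD hN.smooth hζ t θ
    have e : (fun t => sl G ζ (t + 2 * Real.pi) (Q3 θ)) = fun t => sl G ζ t θ :=
      funext fun t => hN.eqv ζ hζ t θ
    rw [e] at h1
    exact h1.unique h2

end Pool.Agent.Helper93.AB
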