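import Pool.Agent.Helper95.AB.GoalsX

/-! AB FX BDX: the `L²` bound of a series of exponentials. -/

open MeasureTheory Set Filter Topology
open scoped ContDiff ENNReal

noncomputable section

namespace Pool.Agent.Helper93.AB

open Pool.Agent.Helper24.AB Pool.Agent.Helper10.AB Pool.Agent.Helper95.AB

namespace BDX

/-- `∑ 1/n²` -/
def S2 : ℝ := ∑' n : ℤ, 1 / (n : ℝ) ^ 2

theorem sumS2 : Summable fun n : ℤ => 1 / (n : ℝ) ^ 2 :=
  Real.summable_one_div_int_pow.2 (by norm_num)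

theorem S2_nonneg : 0 ≤ S2 := tsum_nonneg fun n => by positivity

theorem fin_bound (s : Finset ℤ) : ∑ n ∈ s, (1 + (n : ℝ) ^ 2)⁻¹ ≤ 1 + S2 := by
  classical
  have h1 : ∀ n : ℤ, (1 + (n : ℝ) ^ 2)⁻¹ ≤ (if n = 0 then (1 : ℝ) else 0) + 1 / (n : ℝ) ^ 2 := by
    intro n
    by_cases hn : n = 0
    · subst hn
      simp
    · rw [if_neg hn, zero_add, ← one_div]
      have h : (n : ℝ) ≠ 0 := by exact_mod_cast hn
      refine one_div_le_one_div_of_le (by positivity) (by linarith)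
  calc ∑ n ∈ s, (1 + (n : ℝ) ^ 2)⁻¹ ≤ ∑ n ∈ s, ((if n = 0 then (1 : ℝ) else 0) + 1 / (n : ℝ) ^ 2) :=
        Finset.sum_le_sum fun n _ => h1 n
    _ = ∑ n ∈ s, (if n = 0 then (1 : ℝ) else 0) + ∑ n ∈ s, 1 / (n : ℝ) ^ 2 :=
        Finset.sum_add_distrib
    _ ≤ 1 + S2 := by
        refine add_le_add ?_ (sumS2.sum_le_tsum s fun n _ => by positivity)
        rw [Finset.sum_ite_eq']
        split_ifs <;> simp

theorem pointwise {f : ℤ → ℂ} {z : ℂ} (h : HasSum f z) :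
    ENNReal.ofReal (‖z‖ ^ 2) ≤ ENNReal.ofReal (1 + S2) *
      ∑' n : ℤ, ENNReal.ofReal ((1 + (n : ℝ) ^ 2) * ‖f n‖ ^ 2) := by
  have h1 : Tendsto (fun s : Finset ℤ => ENNReal.ofReal (‖∑ n ∈ s, f n‖ ^ 2)) atTop
      (𝓝 (ENNReal.ofReal (‖z‖ ^ 2))) :=
    ENNReal.tendsto_ofReal ((h : Tendsto _ _ _).norm.pow 2)
  refine le_of_tendsto' h1 fun s => ?_
  have h2 : ‖∑ n ∈ s, f n‖ ^ 2 ≤ (1 + S2) * ∑ n ∈ s, (1 + (n : ℝ) ^ 2) * ‖f n‖ ^ 2 := by
    have h3 : ‖∑ n ∈ s, f n‖ ^ 2 ≤ (∑ n ∈ s, ‖f n‖) ^ 2 := by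
      gcongr
      exact norm_sum_le _ _
    have h4 : (∑ n ∈ s, ‖f n‖) ^ 2 ≤ (∑ n ∈ s, (1 + (n : ℝ) ^ 2)⁻¹) *
        ∑ n ∈ s, (1 + (n : ℝ) ^ 2) * ‖f n‖ ^ 2 := by
      refine Finset.sum_sq_le_sum_mul_sum_of_sq_le_mul s (fun n _ => by positivity)
        (fun n _ => by positivity) fun n _ => le_of_eq ?_
      have : (1 + (n : ℝ) ^ 2) ≠ 0 := by positivity
      field_simp
    refine h3.trans (h4.trans ?_)
    refine mul_le_mul_of_nonneg_right (fin_bound s) (Finset.sum_nonneg fun n _ => by positivity)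
  refine (ENNReal.ofReal_le_ofReal h2).trans ?_
  rw [ENNReal.ofReal_mul (by have := S2_nonneg; positivity),
    ENNReal.ofReal_sum_of_nonneg fun n _ => by positivity]
  gcongr
  exact ENNReal.sum_le_tsum s

theorem SB_eq (a T : ℝ) : SB a T =
    Complex.measurableEquivRealProd ⁻¹' (Ioo (-a) a ×ˢ Ioo (-T) T) := by
  ext w
  simp only [SB, mem_ofPred_eq, mem_preimage, mem_prod, mem_Ioo,
    Complex.measurableEquivRealProd_apply, abs_lt]

theorem mes_SB (a T : ℝ) : MeasurableSet (SB a T) := by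
  rw [SB_eq]
  exact Complex.measurableEquivRealProd.measurable (measurableSet_Ioo.prod measurableSet_Ioo)

theorem lint_SB {a T : ℝ} {g : ℝ → ℝ≥0∞}
    (hg : AEMeasurable g (volume.restrict (Ioo (-a) a))) :
    ∫⁻ w in SB a T, g w.re = ENNReal.ofReal (2 * T) * ∫⁻ σ in Ioo (-a) a, g σ := by
  have h1 : ∫⁻ w in SB a T, g w.re = ∫⁻ q in Ioo (-a) a ×ˢ Ioo (-T) T, g q.1 := by
    rw [SB_eq]
    exact (Complex.volume_preserving_equiv_real_prod.restrict_preimage_emb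
      Complex.measurableEquivRealProd.measurableEmbedding _).lintegral_comp_emb
      Complex.measurableEquivRealProd.measurableEmbedding (fun q : ℝ × ℝ => g q.1)
  rw [h1, Measure.volume_eq_prod, ← Measure.prod_restrict]
  have h2 := lintegral_prod_mul (μ := volume.restrict (Ioo (-a) a))
    (ν := volume.restrict (Ioo (-T) T)) hg (g := fun _ => 1) aemeasurable_const
  simp only [mul_one] at h2
  rw [h2, lintegral_one, Measure.restrict_apply_univ, Real.volume_Ioo, mul_comm]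
  congr 2
  ring

end BDX

open BDX in
theorem bdx : S_BDX := by
  intro a k T ha hT
  have hS2 := S2_nonneg
  refine ⟨(1 + S2) * (2 * T * (2 * a + 4 * a * S2)), by positivity, ?_⟩
  intro φ c G M0 M1 hφ hint hG hsum hb0 hb1
  have hcr : ∀ n : ℤ, ContinuousOn (rhon φ n) (Ioo (-a) a) := fun n => by
    unfold rhon
    fun_prop
  have hSBs : SB a T ⊆ strip a := fun w hw => hw.1
  have hre : ∀ w ∈ SB a T, w.re ∈ Ioo (-a) a := fun w hw => abs_lt.1 hw.1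
  have hcf : ContinuousOn (fun w : ℂ => (Real.exp (-(φ w.re)) * ‖G w‖) ^ 2) (SB a T) := by
    have h1 : ContinuousOn (fun w : ℂ => φ w.re) (SB a T) :=
      hφ.comp Complex.continuous_re.continuousOn hre
    have h2 := hG.mono hSBs
    exact ((Real.continuous_exp.comp_continuousOn h1.neg).mul h2.norm).pow 2
  have hasm : AEStronglyMeasurable (fun w : ℂ => (Real.exp (-(φ w.re)) * ‖G w‖) ^ 2)
      (volume.restrict (SB a T)) := hcf.aestronglyMeasurable (mes_SB a T)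
  -- the pointwise bound
  have hpt : ∀ w ∈ SB a T, ENNReal.ofReal ((Real.exp (-(φ w.re)) * ‖G w‖) ^ 2) ≤
      ENNReal.ofReal (1 + S2) * ∑' n : ℤ, ENNReal.ofReal ((1 + (n : ℝ) ^ 2) *
        |(n : ℝ)| ^ (2 * k) * ‖c n‖ ^ 2 * rhon φ n w.re ^ 2) := by
    intro w hw
    have h1 := pointwise (hsum w (hSBs hw))
    have h2 : ENNReal.ofReal ((Real.exp (-(φ w.re)) * ‖G w‖) ^ 2) =
        ENNReal.ofReal (Real.exp (-(φ w.re)) ^ 2) * ENNReal.ofReal (‖G w‖ ^ 2) := by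
      rw [mul_pow, ENNReal.ofReal_mul (by positivity)]
    rw [h2]
    refine (mul_le_mul_right h1 _).trans (le_of_eq ?_)
    rw [mul_left_comm, ← ENNReal.tsum_mul_left]
    congr 2
    funext n
    rw [← ENNReal.ofReal_mul (by positivity)]
    congr 1
    rw [norm_mul, norm_mul, norm_pow, Complex.norm_exp, Complex.norm_intCast]
    have e : ((n : ℂ) * w).re = n * w.re := by simp
    have e2 : rhon φ n w.re = Real.exp (n * w.re) * Real.exp (-(φ w.re)) := by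
      rw [rhon, sub_eq_add_neg, Real.exp_add]
    rw [e, e2]
    ring
  -- one term
  have hterm : ∀ n : ℤ, ∫⁻ w in SB a T, ENNReal.ofReal ((1 + (n : ℝ) ^ 2) *
        |(n : ℝ)| ^ (2 * k) * ‖c n‖ ^ 2 * rhon φ n w.re ^ 2) ≤
      ENNReal.ofReal (2 * T) * ENNReal.ofReal ((if n = 0 then 2 * a * M0 ^ 2 else 0) +
        4 * a * M1 ^ 2 * (1 / (n : ℝ) ^ 2)) := by
    intro n
    have hm : AEMeasurable (fun σ => ENNReal.ofReal ((1 + (n : ℝ) ^ 2) *
        |(n : ℝ)| ^ (2 * k) * ‖c n‖ ^ 2 * rhon φ n σ ^ 2)) (volume.restrict (Ioo (-a) a)) := by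
      have h1 : AEMeasurable (rhon φ n) (volume.restrict (Ioo (-a) a)) :=
        (hcr n).aemeasurable measurableSet_Ioo
      fun_prop
    rw [lint_SB hm]
    gcongr
    have h2 : ∫⁻ σ in Ioo (-a) a, ENNReal.ofReal ((1 + (n : ℝ) ^ 2) *
        |(n : ℝ)| ^ (2 * k) * ‖c n‖ ^ 2 * rhon φ n σ ^ 2) =
        ENNReal.ofReal ((1 + (n : ℝ) ^ 2) * |(n : ℝ)| ^ (2 * k) * ‖c n‖ ^ 2 * wn a φ n) := by
      rw [wn, ← integral_const_mul, ofReal_integral_eq_lintegral_ofReal ((hint n).const_mul _)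
        (Eventually.of_forall fun σ => by positivity)]
    rw [h2]
    refine ENNReal.ofReal_le_ofReal ?_
    have hw0 : 0 ≤ ‖c n‖ ^ 2 * wn a φ n := by
      have : 0 ≤ wn a φ n := integral_nonneg fun σ => sq_nonneg _
      positivity
    by_cases hn : n = 0
    · subst hn
      have h3 := hb0 0
      have h4 : |((0 : ℤ) : ℝ)| ^ (2 * k) ≤ 1 := by
        rw [Int.cast_zero, abs_zero]
        exact pow_le_one₀ le_rfl zero_le_one
      have h5 : (1 + ((0 : ℤ) : ℝ) ^ 2) * |((0 : ℤ) : ℝ)| ^ (2 * k) * ‖c 0‖ ^ 2 * wn a φ 0 =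
          |((0 : ℤ) : ℝ)| ^ (2 * k) * (‖c 0‖ ^ 2 * wn a φ 0) := by
        rw [Int.cast_zero]
        ring
      rw [h5, if_pos rfl, Int.cast_zero]
      have h6 : |(0 : ℝ)| ^ (2 * k) * (‖c 0‖ ^ 2 * wn a φ 0) ≤ 1 * (‖c 0‖ ^ 2 * wn a φ 0) := by
        refine mul_le_mul_of_nonneg_right ?_ hw0
        simpa using h4
      simp only [ne_eq, OfNat.ofNat_ne_zero, not_false_eq_true, zero_pow, div_zero, mul_zero,
        add_zero]
      linarith
    · have hn' : (n : ℝ) ≠ 0 := by exact_mod_cast hn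
      have hn1 : (1 : ℝ) ≤ (n : ℝ) ^ 2 := by
        have h : (1 : ℤ) ≤ n ^ 2 := by
          have := sq_pos_of_ne_zero (a := n) hn
          omega
        exact_mod_cast h
      rw [if_neg hn, zero_add]
      have h3 := hb1 n
      have h4 : |(n : ℝ)| ^ (2 * k + 4) = |(n : ℝ)| ^ (2 * k) * ((n : ℝ) ^ 2 * (n : ℝ) ^ 2) := by
        rw [pow_add]
        congr 1
        rw [← sq_abs (n : ℝ)]
        ring
      rw [h4] at h3
      have hpos : 0 < (n : ℝ) ^ 2 := by positivity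
      have h5 : (1 + (n : ℝ) ^ 2) * |(n : ℝ)| ^ (2 * k) * ‖c n‖ ^ 2 * wn a φ n ≤
          2 * ((n : ℝ) ^ 2 * |(n : ℝ)| ^ (2 * k) * (‖c n‖ ^ 2 * wn a φ n)) := by
        have h6 : 0 ≤ |(n : ℝ)| ^ (2 * k) * (‖c n‖ ^ 2 * wn a φ n) := by positivity
        nlinarith
      refine h5.trans ?_
      have h7 : (n : ℝ) ^ 2 * |(n : ℝ)| ^ (2 * k) * (‖c n‖ ^ 2 * wn a φ n) ≤
          2 * a * M1 ^ 2 * (1 / (n : ℝ) ^ 2) := by
        rw [mul_one_div, le_div_iff₀ hpos]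
        calc (n : ℝ) ^ 2 * |(n : ℝ)| ^ (2 * k) * (‖c n‖ ^ 2 * wn a φ n) * (n : ℝ) ^ 2 =
            |(n : ℝ)| ^ (2 * k) * ((n : ℝ) ^ 2 * (n : ℝ) ^ 2) * (‖c n‖ ^ 2 * wn a φ n) := by ring
          _ ≤ 2 * a * M1 ^ 2 := h3
      linarith
  -- the sum
  have hsumB : HasSum (fun n : ℤ => (if n = 0 then 2 * a * M0 ^ 2 else 0) +
      4 * a * M1 ^ 2 * (1 / (n : ℝ) ^ 2)) (2 * a * M0 ^ 2 + 4 * a * M1 ^ 2 * S2) :=
    (hasSum_ite_eq (0 : ℤ) (2 * a * M0 ^ 2)).add (sumS2.hasSum.mul_left _)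
  have htot : ∫⁻ w in SB a T, ENNReal.ofReal ((Real.exp (-(φ w.re)) * ‖G w‖) ^ 2) ≤
      ENNReal.ofReal ((1 + S2) * (2 * T * (2 * a + 4 * a * S2)) * (M0 ^ 2 + M1 ^ 2)) := by
    calc ∫⁻ w in SB a T, ENNReal.ofReal ((Real.exp (-(φ w.re)) * ‖G w‖) ^ 2) ≤
        ∫⁻ w in SB a T, ENNReal.ofReal (1 + S2) * ∑' n : ℤ, ENNReal.ofReal ((1 + (n : ℝ) ^ 2) *
        |(n : ℝ)| ^ (2 * k) * ‖c n‖ ^ 2 * rhon φ n w.re ^ 2) :=
          setLIntegral_mono' (mes_SB a T) hpt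
      _ = ENNReal.ofReal (1 + S2) * ∑' n : ℤ, ∫⁻ w in SB a T, ENNReal.ofReal
          ((1 + (n : ℝ) ^ 2) * |(n : ℝ)| ^ (2 * k) * ‖c n‖ ^ 2 * rhon φ n w.re ^ 2) := by
          have hmn : ∀ n : ℤ, AEMeasurable (fun w : ℂ => ENNReal.ofReal ((1 + (n : ℝ) ^ 2) *
              |(n : ℝ)| ^ (2 * k) * ‖c n‖ ^ 2 * rhon φ n w.re ^ 2))
              (volume.restrict (SB a T)) := fun n => by
            have h1 : AEMeasurable (fun w : ℂ => rhon φ n w.re) (volume.restrict (SB a T)) :=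
              ((hcr n).comp Complex.continuous_re.continuousOn hre).aemeasurable (mes_SB a T)
            fun_prop
          rw [lintegral_const_mul' _ _ ENNReal.ofReal_ne_top, lintegral_tsum hmn]
      _ ≤ ENNReal.ofReal (1 + S2) * ∑' n : ℤ, ENNReal.ofReal (2 * T) * ENNReal.ofReal
          ((if n = 0 then 2 * a * M0 ^ 2 else 0) + 4 * a * M1 ^ 2 * (1 / (n : ℝ) ^ 2)) := by
          gcongr with n
          exact hterm n
      _ = ENNReal.ofReal ((1 + S2) * (2 * T * (2 * a * M0 ^ 2 + 4 * a * M1 ^ 2 * S2))) := by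
          have hnn : ∀ n : ℤ, 0 ≤ (if n = 0 then 2 * a * M0 ^ 2 else 0) +
              4 * a * M1 ^ 2 * (1 / (n : ℝ) ^ 2) := fun n => by
            split_ifs <;> positivity
          rw [ENNReal.tsum_mul_left, ← ENNReal.ofReal_tsum_of_nonneg hnn hsumB.summable,
            hsumB.tsum_eq, ENNReal.ofReal_mul (p := 1 + S2) (by positivity),
            ENNReal.ofReal_mul (p := 2 * T) (by positivity)]
      _ ≤ ENNReal.ofReal ((1 + S2) * (2 * T * (2 * a + 4 * a * S2)) * (M0 ^ 2 + M1 ^ 2)) := by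
          refine ENNReal.ofReal_le_ofReal ?_
          have e : (1 + S2) * (2 * T * (2 * a + 4 * a * S2)) * (M0 ^ 2 + M1 ^ 2) =
              (1 + S2) * (2 * T * (2 * a * M0 ^ 2 + 4 * a * M1 ^ 2 * S2)) +
              (1 + S2) * (2 * T * (2 * a * M1 ^ 2 + 4 * a * M0 ^ 2 * S2)) := by ring
          have h : 0 ≤ (1 + S2) * (2 * T * (2 * a * M1 ^ 2 + 4 * a * M0 ^ 2 * S2)) := by
            positivity
          linarith
  have hnn : 0 ≤ᵐ[volume.restrict (SB a T)] fun w : ℂ =>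
      (Real.exp (-(φ w.re)) * ‖G w‖) ^ 2 := Eventually.of_forall fun w => sq_nonneg _
  have hi : IntegrableOn (fun w : ℂ => (Real.exp (-(φ w.re)) * ‖G w‖) ^ 2) (SB a T) :=
    ⟨hasm, (hasFiniteIntegral_iff_ofReal hnn).2 (htot.trans_lt ENNReal.ofReal_lt_top)⟩
  refine ⟨hi, ?_⟩
  rw [← ofReal_integral_eq_lintegral_ofReal hi hnn] at htot
  exact (ENNReal.ofReal_le_ofReal_iff (by positivity)).1 htot

end Pool.Agent.Helper93.AB
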