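import Pool.Agent.Helper95.AB.GoalsX

/-! AB FX ETA: Fourier coefficients of a periodic holomorphic function. -/

open MeasureTheory Set Filter Topology
open scoped ContDiff

noncomputable section

namespace Pool.Agent.Helper93.AB

open Pool.Agent.Helper24.AB Pool.Agent.Helper10.AB Pool.Agent.Helper95.AB

namespace ETA

/-- the integral of a periodic holomorphic function over a vertical period -/
theorem vert {a : ℝ} {H : ℂ → ℂ} (hH : DifferentiableOn ℂ H (strip a))
    (hp : ∀ w ∈ strip a, H (w + 2 * Real.pi * Complex.I) = H w) {σ : ℝ} (hσ : |σ| < a) :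
    ∫ t in (0 : ℝ)..(2 * Real.pi), H ⟨σ, t⟩ = ∫ t in (0 : ℝ)..(2 * Real.pi), H ⟨0, t⟩ := by
  have hx : ∀ x : ℝ, x ∈ uIcc (0 : ℝ) σ → |x| < a := by
    intro x hx
    refine lt_of_le_of_lt ?_ hσ
    rcases le_total 0 σ with h | h
    · rw [uIcc_of_le h] at hx
      rw [abs_of_nonneg hx.1, abs_of_nonneg h]
      exact hx.2
    · rw [uIcc_of_ge h] at hx
      rw [abs_of_nonpos hx.2, abs_of_nonpos h]
      linarith [hx.1]
  have key := Complex.integral_boundary_rect_eq_zero_of_differentiableOn H 0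
    (⟨σ, 2 * Real.pi⟩ : ℂ) (hH.mono fun w hw => hx w.re hw.1)
  have e1 : ∫ x : ℝ in (0 : ℂ).re..(⟨σ, 2 * Real.pi⟩ : ℂ).re,
      H (x + (⟨σ, 2 * Real.pi⟩ : ℂ).im * Complex.I) =
      ∫ x : ℝ in (0 : ℂ).re..(⟨σ, 2 * Real.pi⟩ : ℂ).re, H (x + (0 : ℂ).im * Complex.I) := by
    refine intervalIntegral.integral_congr fun x hx' => ?_
    have h1 : (x : ℂ) + ((0 : ℂ).im : ℂ) * Complex.I = x := by simp
    have h2 : (x : ℂ) + (((⟨σ, 2 * Real.pi⟩ : ℂ).im : ℝ) : ℂ) * Complex.I =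
        x + 2 * Real.pi * Complex.I := by
      push_cast
      ring
    have h3 : (x : ℂ) ∈ strip a := by
      change |(x : ℂ).re| < a
      rw [Complex.ofReal_re]
      exact hx x hx'
    change H ((x : ℂ) + (((⟨σ, 2 * Real.pi⟩ : ℂ).im : ℝ) : ℂ) * Complex.I) =
      H ((x : ℂ) + ((0 : ℂ).im : ℂ) * Complex.I)
    rw [h1, h2, hp _ h3]
  rw [e1, sub_self, zero_add, sub_eq_zero] at key
  have key2 := smul_right_injective ℂ Complex.I_ne_zero key
  have e2 : ∀ s t : ℝ, (⟨s, t⟩ : ℂ) = s + t * Complex.I := fun s t => Complex.mk_eq_add_mul_I s t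
  simp only [e2]
  simpa using key2

end ETA

open ETA in
theorem eta : S_ETA := by
  intro a h _ hd hper n
  obtain ⟨H, hH⟩ : ∃ H : ℂ → ℂ, H = fun w => h w * Complex.exp (-(n * w)) := ⟨_, rfl⟩
  have hHd : DifferentiableOn ℂ H (strip a) := by
    rw [hH]
    exact hd.mul (by fun_prop)
  have hHp : ∀ w ∈ strip a, H (w + 2 * Real.pi * Complex.I) = H w := by
    intro w hw
    have e : -((n : ℂ) * (w + 2 * Real.pi * Complex.I)) =
        -(n * w) + ((-n : ℤ) : ℂ) * (2 * Real.pi * Complex.I) := by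
      push_cast
      ring
    simp only [hH]
    rw [hper w hw, e, Complex.exp_add, Complex.exp_int_mul_two_pi_mul_I, mul_one]
  refine ⟨(((2 * Real.pi)⁻¹ : ℝ) : ℂ) * ∫ t in (0 : ℝ)..(2 * Real.pi), H ⟨0, t⟩, fun σ hσ => ?_⟩
  rw [← vert hHd hHp hσ, fc, fcu, mul_assoc]
  congr 1
  rw [← intervalIntegral.integral_mul_const]
  refine intervalIntegral.integral_congr fun t _ => ?_
  have e1 : (⟨σ, t⟩ : ℂ) = σ + t * Complex.I := Complex.mk_eq_add_mul_I σ t
  have e2 : Complex.exp (-((n : ℂ) * (σ + t * Complex.I))) * ((Real.exp (n * σ) : ℝ) : ℂ) =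
      Complex.exp (-(Complex.I * n * t)) := by
    rw [Complex.ofReal_exp, ← Complex.exp_add]
    congr 1
    push_cast
    ring
  simp only [hH]
  rw [e1, ← e2, mul_assoc]

end Pool.Agent.Helper93.AB
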