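import Pool.Agent.Helper15.AB.GoalsG

/-! # Project AB, packet TAYL: circle averages of C^2 functions. -/

set_option autoImplicit false

open MeasureTheory Set Filter Topology
open scoped ContDiff

noncomputable section

namespace Pool.Agent.Helper15.AB

open Pool.Agent.Helper24.AB

namespace TAYL

theorem taylor2 {f : ℂ → ℝ} {c : ℂ} (hf : ContDiffAt ℝ 2 f c) (ε : ℝ) (hε : 0 < ε) :
    ∃ δ > 0, (∀ z ∈ Metric.ball c δ, ContinuousAt f z) ∧ ∀ h : ℂ, ‖h‖ < δ →
      |f (c + h) - f c - fderiv ℝ f c h - (1 / 2) * fderiv ℝ (fderiv ℝ f) c h h|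
        ≤ ε * ‖h‖ ^ 2 := by
  set A := fderiv ℝ f with hA
  set B := fderiv ℝ A c with hB
  have hA1 : ContDiffAt ℝ 1 A c := hf.fderiv_right (m := 1) (by norm_num)
  have hAd : HasFDerivAt A B c := (hA1.differentiableAt (by norm_num)).hasFDerivAt
  have hfd : ∀ᶠ z in 𝓝 c, HasFDerivAt f (A z) z := by
    filter_upwards [hf.eventually (by simp)] with z hz
    exact (hz.differentiableAt (by norm_num)).hasFDerivAt
  have hsym : ∀ v w, B v w = B w v := fun v w =>
    second_derivative_symmetric_of_eventually hfd hAd v w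
  have h1 : ∀ᶠ z in 𝓝 c, ‖A z - A c - B (z - c)‖ ≤ ε * ‖z - c‖ := hAd.isLittleO.def hε
  obtain ⟨δ, hδ, h2⟩ := Metric.eventually_nhds_iff_ball.mp (hfd.and h1)
  refine ⟨δ, hδ, fun z hz => (h2 z hz).1.continuousAt, fun h hh => ?_⟩
  set g : ℂ → ℝ := fun k => f (c + k) - f c - A c k - (1 / 2) * B k k with hg
  have h3 : ∀ k ∈ Metric.closedBall (0 : ℂ) ‖h‖,
      HasFDerivWithinAt g (A (c + k) - A c - B k) (Metric.closedBall (0 : ℂ) ‖h‖) k := by
    intro k hk
    have hk' : c + k ∈ Metric.ball c δ := by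
      rw [mem_ball_iff_norm, add_sub_cancel_left]
      exact (mem_closedBall_zero_iff.mp hk).trans_lt hh
    have h4 : HasFDerivAt (fun k => f (c + k)) (A (c + k)) k := by
      have h10 : HasFDerivAt (fun k : ℂ => c + k) (ContinuousLinearMap.id ℝ ℂ) k :=
        (hasFDerivAt_id k).const_add c
      have h11 := (h2 _ hk').1.comp k h10
      rw [ContinuousLinearMap.comp_id] at h11
      exact h11
    have h5 : HasFDerivAt (fun k => B k k) (B k + B.flip k) k := by
      have := (B.hasFDerivAt (x := k)).clm_apply (hasFDerivAt_id k)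
      refine this.congr_fderiv ?_
      ext v
      simp
    have h6 := ((h4.sub_const (f c)).sub ((A c).hasFDerivAt (x := k))).sub (h5.const_mul (1 / 2))
    refine (h6.congr_fderiv ?_).hasFDerivWithinAt
    ext v
    · simp only [_root_.sub_apply, _root_.smul_apply,
        _root_.add_apply, ContinuousLinearMap.flip_apply, smul_eq_mul]
      rw [hsym v k]
      ring
  have h7 : ∀ k ∈ Metric.closedBall (0 : ℂ) ‖h‖, ‖A (c + k) - A c - B k‖ ≤ ε * ‖h‖ := by
    intro k hk
    have hk1 : ‖k‖ ≤ ‖h‖ := mem_closedBall_zero_iff.mp hk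
    have hk' : c + k ∈ Metric.ball c δ := by
      rw [mem_ball_iff_norm, add_sub_cancel_left]
      exact hk1.trans_lt hh
    have := (h2 _ hk').2
    rw [add_sub_cancel_left] at this
    exact this.trans (mul_le_mul_of_nonneg_left hk1 hε.le)
  have h8 := (convex_closedBall (0 : ℂ) ‖h‖).norm_image_sub_le_of_norm_hasFDerivWithin_le h3 h7
    (Metric.mem_closedBall_self (norm_nonneg h)) (mem_closedBall_zero_iff.mpr le_rfl)
  have h9 : g 0 = 0 := by simp [hg]
  rw [h9, sub_zero, sub_zero, Real.norm_eq_abs] at h8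
  calc |g h| ≤ ε * ‖h‖ * ‖h‖ := h8
    _ = ε * ‖h‖ ^ 2 := by ring

theorem circ_sub (c : ℂ) (r θ : ℝ) :
    circleMap c r θ - c = (r * Real.cos θ) • (1 : ℂ) + (r * Real.sin θ) • Complex.I := by
  rw [circleMap, add_sub_cancel_left, Complex.exp_mul_I]
  simp only [Complex.real_smul, Complex.ofReal_mul, Complex.ofReal_cos, Complex.ofReal_sin]
  ring

theorem avg_quad (c : ℂ) (r m : ℝ) (A : ℂ →L[ℝ] ℝ) (B : ℂ →L[ℝ] ℂ →L[ℝ] ℝ) :
    Real.circleAverage (fun z => m + A (z - c) + (1 / 2) * B (z - c) (z - c)) c r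
      = m + r ^ 2 * (B 1 1 + B Complex.I Complex.I) / 4 := by
  rw [Real.circleAverage_def]
  have h1 : ∀ θ : ℝ, m + A (circleMap c r θ - c) +
      (1 / 2) * B (circleMap c r θ - c) (circleMap c r θ - c) =
      m + (r * A 1) * Real.cos θ + (r * A Complex.I) * Real.sin θ
        + (r ^ 2 / 2 * B 1 1) * Real.cos θ ^ 2
        + (r ^ 2 / 2 * (B 1 Complex.I + B Complex.I 1)) * (Real.sin θ * Real.cos θ)
        + (r ^ 2 / 2 * B Complex.I Complex.I) * Real.sin θ ^ 2 := by
    intro θ
    rw [circ_sub]
    simp only [map_add, map_smul, _root_.add_apply, _root_.smul_apply, smul_eq_mul]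
    ring
  simp only [h1]
  have i1 : ∀ (a : ℝ) (g : ℝ → ℝ), Continuous g →
      IntervalIntegrable (fun θ => a * g θ) volume 0 (2 * Real.pi) := fun a g hg =>
    (continuous_const.mul hg).intervalIntegrable _ _
  have c1 := i1 (r * A 1) Real.cos Real.continuous_cos
  have c2 := i1 (r * A Complex.I) Real.sin Real.continuous_sin
  have c3 := i1 (r ^ 2 / 2 * B 1 1) (fun θ => Real.cos θ ^ 2) (Real.continuous_cos.pow 2)
  have c4 := i1 (r ^ 2 / 2 * (B 1 Complex.I + B Complex.I 1))
    (fun θ => Real.sin θ * Real.cos θ) (Real.continuous_sin.mul Real.continuous_cos)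
  have c5 := i1 (r ^ 2 / 2 * B Complex.I Complex.I) (fun θ => Real.sin θ ^ 2)
    (Real.continuous_sin.pow 2)
  have c0 : IntervalIntegrable (fun _ : ℝ => m) volume 0 (2 * Real.pi) :=
    intervalIntegrable_const
  rw [intervalIntegral.integral_add ((((c0.add c1).add c2).add c3).add c4) c5,
    intervalIntegral.integral_add (((c0.add c1).add c2).add c3) c4,
    intervalIntegral.integral_add ((c0.add c1).add c2) c3,
    intervalIntegral.integral_add (c0.add c1) c2,
    intervalIntegral.integral_add c0 c1]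
  simp only [intervalIntegral.integral_const_mul, integral_cos, integral_sin, integral_cos_sq,
    integral_sin_sq, integral_sin_mul_cos₁, intervalIntegral.integral_const, smul_eq_mul,
    Real.sin_two_pi, Real.cos_two_pi, Real.sin_zero, Real.cos_zero]
  have hp : Real.pi ≠ 0 := Real.pi_ne_zero
  field_simp
  ring

end TAYL

open TAYL in
/-- TAYL. -/
theorem tayl : S_TAYL := by
  intro f c hf
  rw [Metric.tendsto_nhdsWithin_nhds]
  intro ε hε
  obtain ⟨δ, hδ, hc, h1⟩ := taylor2 hf (ε / 2) (half_pos hε)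
  refine ⟨δ, hδ, fun r hr hrδ => ?_⟩
  have hr0 : 0 < r := hr
  rw [Real.dist_eq, sub_zero, abs_of_pos hr0] at hrδ
  set A := fderiv ℝ f c with hA
  set B := fderiv ℝ (fderiv ℝ f) c with hB
  have hmem : ∀ θ : ℝ, circleMap c r θ ∈ Metric.ball c δ := fun θ => by
    rw [mem_ball_iff_norm, circleMap_sub_center, norm_circleMap_zero, abs_of_pos hr0]
    exact hrδ
  have hfi : CircleIntegrable f c r := by
    rw [circleIntegrable_def]
    refine Continuous.intervalIntegrable ?_ _ _
    exact continuous_iff_continuousAt.mpr fun θ =>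
      ContinuousAt.comp (f := circleMap c r) (hc _ (hmem θ))
        (continuous_circleMap c r).continuousAt
  have hqi : CircleIntegrable
      (fun z => f c + A (z - c) + (1 / 2) * B (z - c) (z - c)) c r := by
    rw [circleIntegrable_def]
    refine Continuous.intervalIntegrable ?_ _ _
    have h2 : Continuous (fun θ => circleMap c r θ - c) :=
      (continuous_circleMap c r).sub continuous_const
    exact (continuous_const.add (A.continuous.comp h2)).add
      (continuous_const.mul ((B.continuous.comp h2).clm_apply h2))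
  have h3 := Real.circleAverage_fun_sub hfi hqi
  rw [avg_quad] at h3
  have h4 : |Real.circleAverage (fun z => f z -
      (f c + A (z - c) + (1 / 2) * B (z - c) (z - c))) c r| ≤ ε / 2 * r ^ 2 := by
    refine Real.abs_circleAverage_le_circleAverage_abs.trans ?_
    refine Real.circleAverage_mono_on_of_le_circle (hfi.sub hqi).abs fun z hz => ?_
    have h5 : ‖z - c‖ = r := by
      rw [mem_sphere_iff_norm, abs_of_pos hr0] at hz
      exact hz
    have h6 := h1 (z - c) (by rw [h5]; exact hrδ)
    rw [add_sub_cancel, h5] at h6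
    have h7 : f z - (f c + A (z - c) + (1 / 2) * B (z - c) (z - c)) =
        f z - f c - A (z - c) - (1 / 2) * B (z - c) (z - c) := by ring
    show |f z - (f c + A (z - c) + (1 / 2) * B (z - c) (z - c))| ≤ _
    rw [h7]
    exact h6
  have hlap : lapC f c = B 1 1 + B Complex.I Complex.I := by
    have hAd : DifferentiableAt ℝ (fderiv ℝ f) c :=
      (hf.fderiv_right (m := 1) (by norm_num)).differentiableAt (by norm_num)
    have h8 : ∀ v : ℂ, fderiv ℝ (fun w => fderiv ℝ f w v) c v = B v v := by
      intro v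
      have := (hAd.hasFDerivAt.clm_apply (hasFDerivAt_const v c)).fderiv
      rw [this]
      simp [hB]
    unfold lapC
    exact congrArg₂ (· + ·) (h8 1) (h8 Complex.I)
  rw [h3] at h4
  rw [Real.dist_eq, hlap]
  have hr2 : 0 < r ^ 2 := by positivity
  have h9 : (Real.circleAverage f c r - f c) / r ^ 2 - (B 1 1 + B Complex.I Complex.I) / 4 =
      (Real.circleAverage f c r - (f c + r ^ 2 * (B 1 1 + B Complex.I Complex.I) / 4)) / r ^ 2 := by
    field_simp
    ring
  rw [h9, abs_div, abs_of_pos hr2, div_lt_iff₀ hr2]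
  refine h4.trans_lt ?_
  exact mul_lt_mul_of_pos_right (half_lt_self hε) hr2

end Pool.Agent.Helper15.AB
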