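import Pool.Agent.Helper24.AB.AN.Goals

/-! # Project AB, packet FAT: from difference quotients to derivatives. -/

set_option autoImplicit false

open MeasureTheory Set Filter Topology
open scoped ContDiff

noncomputable section

namespace Pool.Agent.Helper24.AB

namespace FAT

/-- difference quotient of functions of one real variable -/
def D1 (h : ℝ) (g : ℝ → ℂ) : ℝ → ℂ := fun t => (g (t + h) - g t) / h

theorem iter_deriv_smooth {f : ℝ → ℂ} (hf : ContDiff ℝ ∞ f) (k : ℕ) :
    ContDiff ℝ ∞ (iteratedDeriv k f) := by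
  induction k with
  | zero => simpa using hf
  | succ k ih =>
    rw [iteratedDeriv_succ]
    exact (contDiff_infty_iff_deriv.mp ih).2

theorem D1_smooth {f : ℝ → ℂ} (hf : ContDiff ℝ ∞ f) (h : ℝ) : ContDiff ℝ ∞ (D1 h f) := by
  have h1 : ContDiff ℝ ∞ (fun t => f (t + h)) := hf.comp (contDiff_id.add contDiff_const)
  exact (h1.sub hf).div_const _

theorem iter_D1 {f : ℝ → ℂ} (hf : ContDiff ℝ ∞ f) (h : ℝ) (k : ℕ) :
    iteratedDeriv k (D1 h f) = D1 h (iteratedDeriv k f) := by
  induction k with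
  | zero => simp
  | succ k ih =>
    rw [iteratedDeriv_succ, ih, iteratedDeriv_succ]
    have hd : Differentiable ℝ (iteratedDeriv k f) :=
      (iter_deriv_smooth hf k).differentiable (by simp)
    funext t
    have h1 : HasDerivAt (iteratedDeriv k f) (deriv (iteratedDeriv k f) t) t := (hd t).hasDerivAt
    have h2 : HasDerivAt (fun t => iteratedDeriv k f (t + h))
        (deriv (iteratedDeriv k f) (t + h)) t :=
      (hd (t + h)).hasDerivAt.comp_add_const t h
    have h3 := (h2.sub h1).div_const (h : ℂ)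
    exact h3.deriv

theorem mvtc (h : ℝ) (hh : 0 < h) (c : ℂ) (B : ℝ) (k : ℕ) : ∀ (f : ℝ → ℂ), ContDiff ℝ ∞ f →
    ∀ t : ℝ, (∀ s, 0 ≤ s → s ≤ k * h → ‖iteratedDeriv k f (t + s) - c‖ ≤ B) →
      ‖(D1 h)^[k] f t - c‖ ≤ B := by
  induction k with
  | zero =>
    intro f _ t hB
    have := hB 0 le_rfl (by simp)
    simpa using this
  | succ k ih =>
    intro f hf t hB
    rw [Function.iterate_succ_apply]
    refine ih (D1 h f) (D1_smooth hf h) t fun s hs0 hs1 => ?_
    rw [iter_D1 hf]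
    have hd : Differentiable ℝ (iteratedDeriv k f) :=
      (iter_deriv_smooth hf k).differentiable (by simp)
    set g : ℝ → ℂ := fun u => iteratedDeriv k f (t + s + u) - u • c with hg
    have h1 : ∀ x ∈ Icc (0 : ℝ) h, HasDerivWithinAt g
        (iteratedDeriv (k + 1) f (t + s + x) - c) (Icc (0 : ℝ) h) x := by
      intro x _
      have h2 : HasDerivAt (fun u => iteratedDeriv k f (t + s + u))
          (deriv (iteratedDeriv k f) (t + s + x)) x :=
        (hd (t + s + x)).hasDerivAt.comp_const_add (t + s) x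
      have h3 : HasDerivAt (fun u : ℝ => u • c) c x := by
        simpa using (hasDerivAt_id x).smul_const c
      rw [iteratedDeriv_succ]
      exact (h2.sub h3).hasDerivWithinAt
    have h4 := norm_image_sub_le_of_norm_deriv_le_segment' (C := B) h1 (fun x hx => by
      have := hB (s + x) (add_nonneg hs0 hx.1) (by push_cast; linarith [hx.2])
      rwa [← add_assoc] at this) h ⟨hh.le, le_rfl⟩
    have h5 : g h - g 0 = h • (D1 h (iteratedDeriv k f) (t + s) - c) := by
      simp only [hg, D1, add_zero, Complex.real_smul, Complex.ofReal_zero, zero_mul, sub_zero]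
      have : (h : ℂ) ≠ 0 := Complex.ofReal_ne_zero.mpr hh.ne'
      field_simp
      ring
    rw [h5, norm_smul, Real.norm_of_nonneg hh.le, sub_zero, mul_comm] at h4
    exact le_of_mul_le_mul_right h4 hh

theorem tendsto_D1 {f : ℝ → ℂ} (hf : ContDiff ℝ ∞ f) (k : ℕ) (t : ℝ) :
    Tendsto (fun n : ℕ => (D1 (1 / ((n : ℝ) + 1)))^[k] f t) atTop
      (𝓝 (iteratedDeriv k f t)) := by
  rw [Metric.tendsto_atTop]
  intro ε hε
  have hc : Continuous (iteratedDeriv k f) := (iter_deriv_smooth hf k).continuous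
  obtain ⟨δ, hδ, hδ'⟩ := Metric.continuous_iff.mp hc t (ε / 2) (half_pos hε)
  have h1 : Tendsto (fun n : ℕ => (k : ℝ) * (1 / ((n : ℝ) + 1))) atTop (𝓝 0) := by
    have := tendsto_one_div_add_atTop_nhds_zero_nat (𝕜 := ℝ)
    simpa using this.const_mul (k : ℝ)
  obtain ⟨N, hN⟩ := Metric.tendsto_atTop.mp h1 δ hδ
  refine ⟨N, fun n hn => ?_⟩
  have hh : (0 : ℝ) < 1 / ((n : ℝ) + 1) := by positivity
  have h2 := hN n hn
  rw [Real.dist_eq, sub_zero, abs_of_nonneg (by positivity)] at h2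
  have h3 := mvtc _ hh (iteratedDeriv k f t) (ε / 2) k f hf t fun s hs0 hs1 => by
    have := hδ' (t + s) (by
      rw [Real.dist_eq, add_sub_cancel_left, abs_of_nonneg hs0]
      exact hs1.trans_lt h2)
    rw [dist_eq_norm] at this
    exact this.le
  rw [dist_eq_norm]
  exact h3.trans_lt (half_lt_self hε)

/-! ### the strip -/

theorem isOpen_strip (a : ℝ) : IsOpen (strip a) := by
  have : strip a = (fun w : ℂ => |w.re|) ⁻¹' Iio a := rfl
  rw [this]
  exact isOpen_Iio.preimage (Complex.continuous_re.abs)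

/-- vertical line -/
def vl (σ t : ℝ) : ℂ := (σ : ℂ) + (t : ℂ) * Complex.I

theorem vl_re_im (w : ℂ) : vl w.re w.im = w := Complex.re_add_im w

theorem vl_mem {a σ : ℝ} (h : |σ| < a) (t : ℝ) : vl σ t ∈ strip a := by
  show |(vl σ t).re| < a
  have : (vl σ t).re = σ := by simp [vl]
  rw [this]
  exact h

theorem vl_cd (σ : ℝ) : ContDiff ℝ ∞ (vl σ) := by
  have h1 : ContDiff ℝ ∞ (fun t : ℝ => (t : ℂ)) := Complex.ofRealCLM.contDiff
  exact contDiff_const.add (h1.mul contDiff_const)

theorem vl_deriv (σ t : ℝ) : HasDerivAt (vl σ) Complex.I t := by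
  have h1 : HasDerivAt (fun t : ℝ => (t : ℂ)) 1 t := Complex.ofRealCLM.hasDerivAt
  have h2 := (h1.mul_const Complex.I).const_add (σ : ℂ)
  rw [one_mul] at h2
  exact h2

theorem Dh_line (h : ℝ) (σ : ℝ) (k : ℕ) : ∀ (G : ℂ → ℂ) (t : ℝ),
    (Dh h)^[k] G (vl σ t) = (D1 h)^[k] (fun t => G (vl σ t)) t := by
  induction k with
  | zero => intro G t; rfl
  | succ k ih =>
    intro G t
    rw [Function.iterate_succ_apply, Function.iterate_succ_apply, ih]
    have h1 : (fun t => Dh h G (vl σ t)) = D1 h fun t => G (vl σ t) := by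
      funext s
      have : vl σ s + h * Complex.I = vl σ (s + h) := by
        simp only [vl, Complex.ofReal_add]
        ring
      simp only [Dh, D1, this]
    rw [h1]

theorem dT_cd {a : ℝ} {G : ℂ → ℂ} (hG : ContDiffOn ℝ ∞ G (strip a)) :
    ContDiffOn ℝ ∞ (dT G) (strip a) := by
  unfold dT
  exact (hG.fderiv_of_isOpen (isOpen_strip a) (by simp)).clm_apply contDiffOn_const

theorem dTk_cd {a : ℝ} {G : ℂ → ℂ} (hG : ContDiffOn ℝ ∞ G (strip a)) (k : ℕ) :
    ContDiffOn ℝ ∞ (dT^[k] G) (strip a) := by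
  induction k with
  | zero => exact hG
  | succ k ih =>
    rw [Function.iterate_succ']
    exact dT_cd ih

theorem line_cd {a σ : ℝ} (h : |σ| < a) {G : ℂ → ℂ} (hG : ContDiffOn ℝ ∞ G (strip a)) :
    ContDiff ℝ ∞ (fun t => G (vl σ t)) :=
  hG.comp_contDiff (vl_cd σ) (vl_mem h)

theorem dT_line {a σ : ℝ} (h : |σ| < a) {G : ℂ → ℂ} (hG : ContDiffOn ℝ ∞ G (strip a)) (k : ℕ) :
    (fun t => dT^[k] G (vl σ t)) = iteratedDeriv k (fun t => G (vl σ t)) := by
  induction k with
  | zero => simp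
  | succ k ih =>
    rw [iteratedDeriv_succ, ← ih]
    funext t
    rw [Function.iterate_succ_apply']
    have h1 : DifferentiableAt ℝ (dT^[k] G) (vl σ t) :=
      ((dTk_cd hG k).contDiffAt ((isOpen_strip a).mem_nhds (vl_mem h t))).differentiableAt
        (by simp)
    exact (h1.hasFDerivAt.comp_hasDerivAt t (vl_deriv σ t)).deriv.symm

theorem tendsto_Dh {a : ℝ} {G : ℂ → ℂ} (hG : ContDiffOn ℝ ∞ G (strip a)) (k : ℕ) {w : ℂ}
    (hw : w ∈ strip a) :
    Tendsto (fun n : ℕ => (Dh (1 / ((n : ℝ) + 1)))^[k] G w) atTop (𝓝 (dT^[k] G w)) := by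
  have h1 := tendsto_D1 (line_cd hw hG) k w.im
  rw [← dT_line hw hG k] at h1
  have h2 : (fun t => dT^[k] G (vl w.re t)) w.im = dT^[k] G w := by
    show dT^[k] G (vl w.re w.im) = dT^[k] G w
    rw [vl_re_im]
  rw [h2] at h1
  refine h1.congr fun n => ?_
  rw [← Dh_line, vl_re_im]

end FAT

open FAT in
/-- (FAT) -/
theorem fat : S_FAT := by
  intro a ι W G ha hW hG hk k
  refine ⟨fun j => ?_, fun N => ?_⟩
  · exact ((dTk_cd (hG j) k).continuousOn).aestronglyMeasurable (isOpen_strip a).measurableSet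
  · obtain ⟨C, hC⟩ := (hk k).2 N
    refine ⟨C, fun j => ?_⟩
    have hh : ∀ n : ℕ, (1 / ((n : ℝ) + 1)) ∈ Ioc (0 : ℝ) 1 := fun n =>
      ⟨by positivity, by
        rw [div_le_one (by positivity)]
        linarith [Nat.cast_nonneg (α := ℝ) n]⟩
    have h1 := Lp.eLpNorm_lim_le_liminf_eLpNorm (μ := muS a) (p := 2)
      (f := fun (n : ℕ) w => ((W j w.im) ^ N : ℝ) • (Dh (1 / ((n : ℝ) + 1)))^[k] (G j) w)
      (fun n => ?_) (fun w => ((W j w.im) ^ N : ℝ) • dT^[k] (G j) w) ?_
    · refine h1.trans ?_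
      refine liminf_le_of_frequently_le' (Frequently.of_forall fun n => ?_)
      exact hC (j, ⟨_, hh n⟩)
    · have h2 : Continuous (fun w : ℂ => ((W j w.im) ^ N : ℝ)) :=
        ((hW.cont j).comp Complex.continuous_im).pow N
      exact h2.aestronglyMeasurable.smul ((hk k).1 (j, ⟨_, hh n⟩))
    · refine (ae_restrict_mem (isOpen_strip a).measurableSet).mono fun w hw => ?_
      exact (tendsto_Dh (hG j) k hw).const_smul _

end Pool.Agent.Helper24.AB
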