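import Pool.Agent.Helper95.AB.GoalsW

/-! AB BW SPREAD: from a small square to a big one. -/

open MeasureTheory Set Filter Topology
open scoped ContDiff

noncomputable section

namespace Pool.Agent.Helper93.AB

open Pool.Agent.Helper24.AB Pool.Agent.Helper95.AB

namespace SPREAD

/-! ## Rectangles -/

theorem Ico_int {a b : ℝ} (h : a ≤ b) (f : ℝ → ℝ) : ∫ x in Ico a b, f x = ∫ x in a..b, f x := by
  rw [intervalIntegral.integral_of_le h, integral_Ico_eq_integral_Ioo,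
    integral_Ioc_eq_integral_Ioo]

theorem box (F : ℂ → ℝ) {a1 b1 a2 b2 : ℝ} (h1 : a1 ≤ b1) (h2 : a2 ≤ b2)
    (hF : ContinuousOn F {w : ℂ | w.re ∈ Icc a1 b1 ∧ w.im ∈ Icc a2 b2}) :
    (∫ w in {w : ℂ | a1 ≤ w.re ∧ w.re < b1 ∧ a2 ≤ w.im ∧ w.im < b2}, F w =
      ∫ s in a1..b1, ∫ t in a2..b2, F ⟨s, t⟩) ∧
    (∫ w in {w : ℂ | a1 ≤ w.re ∧ w.re < b1 ∧ a2 ≤ w.im ∧ w.im < b2}, F w =
      ∫ t in a2..b2, ∫ s in a1..b1, F ⟨s, t⟩) ∧
    IntervalIntegrable (fun s => ∫ t in a2..b2, F ⟨s, t⟩) volume a1 b1 ∧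
    IntervalIntegrable (fun t => ∫ s in a1..b1, F ⟨s, t⟩) volume a2 b2 := by
  obtain ⟨g, hg⟩ : ∃ g : ℝ × ℝ → ℝ, g = fun p => F ⟨p.1, p.2⟩ := ⟨_, rfl⟩
  have hc : ContinuousOn g (Icc a1 b1 ×ˢ Icc a2 b2) := by
    rw [hg]
    refine hF.comp (Continuous.continuousOn ?_) ?_
    · exact Complex.equivRealProdCLM.symm.continuous
    · rintro ⟨s, t⟩ ⟨hs, ht⟩
      exact ⟨hs, ht⟩
  have hi : IntegrableOn g (Icc a1 b1 ×ˢ Icc a2 b2) (volume.prod volume) :=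
    hc.integrableOn_compact (isCompact_Icc.prod isCompact_Icc)
  have hi2 : IntegrableOn g (Ico a1 b1 ×ˢ Ico a2 b2) (volume.prod volume) :=
    hi.mono_set (prod_mono Ico_subset_Icc_self Ico_subset_Icc_self)
  have e0 : {w : ℂ | a1 ≤ w.re ∧ w.re < b1 ∧ a2 ≤ w.im ∧ w.im < b2} =
      Complex.measurableEquivRealProd ⁻¹' (Ico a1 b1 ×ˢ Ico a2 b2) := by
    ext w
    simp only [mem_ofPred_eq, mem_preimage, mem_prod, mem_Ico,
      Complex.measurableEquivRealProd_apply]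
    tauto
  have e1 : ∫ w in {w : ℂ | a1 ≤ w.re ∧ w.re < b1 ∧ a2 ≤ w.im ∧ w.im < b2}, F w =
      ∫ p in Ico a1 b1 ×ˢ Ico a2 b2, g p := by
    rw [e0, ← Complex.volume_preserving_equiv_real_prod.setIntegral_preimage_emb
      Complex.measurableEquivRealProd.measurableEmbedding g]
    rw [hg]
    rfl
  have e2 : ∫ p in Ico a1 b1 ×ˢ Ico a2 b2, g p = ∫ s in Ico a1 b1, ∫ t in Ico a2 b2, g (s, t) :=
    setIntegral_prod g hi2
  have hi3 : IntegrableOn (fun p : ℝ × ℝ => g p.swap) (Ico a2 b2 ×ˢ Ico a1 b1)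
      (volume.prod volume) := hi2.swap
  have e3 : ∫ p in Ico a1 b1 ×ˢ Ico a2 b2, g p = ∫ t in Ico a2 b2, ∫ s in Ico a1 b1, g (s, t) := by
    have h := setIntegral_prod (fun p : ℝ × ℝ => g p.swap) hi3
    have h' := setIntegral_prod_swap (μ := (volume : Measure ℝ)) (ν := (volume : Measure ℝ))
      (Ico a1 b1) (Ico a2 b2) g
    exact h'.symm.trans h
  have i1 : IntegrableOn (fun s => ∫ t in Ico a2 b2, g (s, t)) (Ico a1 b1) := by
    have h := hi2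
    rw [IntegrableOn, ← Measure.prod_restrict] at h
    exact h.integral_prod_left
  have i2 : IntegrableOn (fun t => ∫ s in Ico a1 b1, g (s, t)) (Ico a2 b2) := by
    have h := hi3
    rw [IntegrableOn, ← Measure.prod_restrict] at h
    exact h.integral_prod_left
  have f1 : ∀ s, ∫ t in Ico a2 b2, g (s, t) = ∫ t in a2..b2, F ⟨s, t⟩ := fun s => by
    rw [Ico_int h2, hg]
  have f2 : ∀ t, ∫ s in Ico a1 b1, g (s, t) = ∫ s in a1..b1, F ⟨s, t⟩ := fun t => by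
    rw [Ico_int h1, hg]
  simp only [f1, f2] at e2 e3 i1 i2
  refine ⟨?_, ?_, ?_, ?_⟩
  · rw [e1, e2, Ico_int h1]
  · rw [e1, e3, Ico_int h2]
  · rw [intervalIntegrable_iff_integrableOn_Ico_of_le h1]
    exact i1
  · rw [intervalIntegrable_iff_integrableOn_Ico_of_le h2]
    exact i2

/-! ## One row -/

theorem row (hL2 : S_L2) {f : ℝ → ℂ} {A E : ℝ → ℝ} {α β α' β' : ℝ} (hαβ : α < β) (h1 : α ≤ α')
    (h2 : α' ≤ β') (h3 : β' ≤ β) (h8 : β' - α' = (β - α) / 8)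
    (hf : ContDiff ℝ 1 f) (hA : ContinuousOn A (Icc α β)) (hE : ContinuousOn E (Icc α β))
    (hle : ∀ x ∈ Icc α β, ‖deriv f x + Complex.I * A x * f x‖ ^ 2 ≤ E x) :
    ∫ x in α..β, ‖f x‖ ^ 2 ≤
      16 * (∫ x in α'..β', ‖f x‖ ^ 2) + 2 * (β - α) ^ 2 * ∫ x in α..β, E x := by
  have hsub : Ioc α' β' ⊆ Ioc α β := Ioc_subset_Ioc h1 h3
  have key := hL2 α β f A ((Ioc α' β').indicator fun _ => 1) hαβ hf hA
    ((integrableOn_const (by simp)).indicator measurableSet_Ioc)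
    (fun x _ => indicator_nonneg (fun _ _ => zero_le_one) x)
  have hV : ∫ x in α..β, (Ioc α' β').indicator (fun _ => (1 : ℝ)) x = (β - α) / 8 := by
    rw [intervalIntegral.integral_of_le hαβ.le, setIntegral_indicator measurableSet_Ioc,
      inter_eq_right.2 hsub, ← intervalIntegral.integral_of_le h2, ← h8]
    simp
  have hVf : ∫ x in α..β, (Ioc α' β').indicator (fun _ => (1 : ℝ)) x * ‖f x‖ ^ 2 =
      ∫ x in α'..β', ‖f x‖ ^ 2 := by
    have e : ∀ x, (Ioc α' β').indicator (fun _ => (1 : ℝ)) x * ‖f x‖ ^ 2 =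
        (Ioc α' β').indicator (fun x => ‖f x‖ ^ 2) x := fun x => by
      by_cases hx : x ∈ Ioc α' β'
      · rw [indicator_of_mem hx, indicator_of_mem hx, one_mul]
      · rw [indicator_of_notMem hx, indicator_of_notMem hx, zero_mul]
    simp only [e]
    rw [intervalIntegral.integral_of_le hαβ.le, setIntegral_indicator measurableSet_Ioc,
      inter_eq_right.2 hsub, ← intervalIntegral.integral_of_le h2]
  rw [hV, hVf] at key
  have hfd : Continuous (deriv f) := hf.continuous_deriv le_rfl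
  have hcG : ContinuousOn (fun x => ‖deriv f x + Complex.I * A x * f x‖ ^ 2) (Icc α β) := by
    refine ContinuousOn.pow (ContinuousOn.norm (ContinuousOn.add hfd.continuousOn ?_)) 2
    exact (continuousOn_const.mul (Complex.continuous_ofReal.comp_continuousOn hA)).mul
      hf.continuous.continuousOn
  have hmono : ∫ x in α..β, ‖deriv f x + Complex.I * A x * f x‖ ^ 2 ≤ ∫ x in α..β, E x := by
    refine intervalIntegral.integral_mono_on hαβ.le ?_ ?_ hle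
    · exact hcG.intervalIntegrable_of_Icc hαβ.le
    · exact hE.intervalIntegrable_of_Icc hαβ.le
  have hd : 0 < (β - α) / 8 := by linarith
  have h4 : 2 * (β - α) ^ 2 * ((β - α) / 8) * ∫ x in α..β, ‖deriv f x + Complex.I * A x * f x‖ ^ 2 ≤
      2 * (β - α) ^ 2 * ((β - α) / 8) * ∫ x in α..β, E x :=
    mul_le_mul_of_nonneg_left hmono (by positivity)
  have h5 : (β - α) / 8 * (∫ x in α..β, ‖f x‖ ^ 2) ≤ (β - α) / 8 *
      (16 * (∫ x in α'..β', ‖f x‖ ^ 2) + 2 * (β - α) ^ 2 * ∫ x in α..β, E x) := by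
    nlinarith
  exact le_of_mul_le_mul_left h5 hd

/-! ## The functions -/

theorem isOpen_strip (a : ℝ) : IsOpen (strip a) :=
  isOpen_lt (continuous_abs.comp Complex.continuous_re) continuous_const

theorem cont_gA {a : ℝ} {Φ : ℂ → ℝ} {φ : ℂ → ℂ} (hΦ : ContDiffOn ℝ ∞ Φ (strip a))
    (hφ : ContDiff ℝ ∞ φ) : ContinuousOn (fun w => gA Φ φ w) (strip a) ∧
      ContinuousOn (fun w => dS Φ w) (strip a) ∧ ContinuousOn (fun w => dT Φ w) (strip a) := by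
  have h1 : ContinuousOn (fderiv ℝ Φ) (strip a) :=
    hΦ.continuousOn_fderiv_of_isOpen (isOpen_strip a) (by simp)
  have h2 : ContinuousOn (fun w => dS Φ w) (strip a) := h1.clm_apply continuousOn_const
  have h3 : ContinuousOn (fun w => dT Φ w) (strip a) := h1.clm_apply continuousOn_const
  have h4 : Continuous (fderiv ℝ φ) := hφ.continuous_fderiv (by simp)
  have h5 : Continuous fun w => dS φ w := h4.clm_apply continuous_const
  have h6 : Continuous fun w => dT φ w := h4.clm_apply continuous_const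
  refine ⟨?_, h2, h3⟩
  have e : (fun w => gA Φ φ w) = fun w =>
      ‖dS φ w + Complex.I * (dT Φ w : ℝ) * φ w‖ ^ 2 +
        ‖dT φ w - Complex.I * (dS Φ w : ℝ) * φ w‖ ^ 2 := rfl
  rw [e]
  refine ContinuousOn.add (ContinuousOn.pow (ContinuousOn.norm (ContinuousOn.add
    h5.continuousOn ?_)) 2) (ContinuousOn.pow (ContinuousOn.norm (ContinuousOn.sub
    h6.continuousOn ?_)) 2)
  · exact (continuousOn_const.mul (Complex.continuous_ofReal.comp_continuousOn h3)).mul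
      hφ.continuous.continuousOn
  · exact (continuousOn_const.mul (Complex.continuous_ofReal.comp_continuousOn h2)).mul
      hφ.continuous.continuousOn

theorem hasDeriv_t (s t : ℝ) : HasDerivAt (fun t : ℝ => (⟨s, t⟩ : ℂ)) Complex.I t := by
  have h : (fun t : ℝ => (⟨s, t⟩ : ℂ)) = fun t : ℝ => (s : ℂ) + t * Complex.I := by
    funext t
    exact Complex.mk_eq_add_mul_I s t
  rw [h]
  have h1 := ((Complex.ofRealCLM.hasDerivAt (x := t)).mul_const Complex.I).const_add (s : ℂ)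
  simpa using h1

theorem hasDeriv_s (s t : ℝ) : HasDerivAt (fun s : ℝ => (⟨s, t⟩ : ℂ)) 1 s := by
  have h : (fun s : ℝ => (⟨s, t⟩ : ℂ)) = fun s : ℝ => (s : ℂ) + t * Complex.I := by
    funext s
    exact Complex.mk_eq_add_mul_I s t
  rw [h]
  have h1 := (Complex.ofRealCLM.hasDerivAt (x := s)).add_const ((t : ℂ) * Complex.I)
  simpa using h1

theorem mk_cont_t (s : ℝ) : ContDiff ℝ ∞ (fun t : ℝ => (⟨s, t⟩ : ℂ)) :=
  Complex.equivRealProdCLM.symm.contDiff.comp (contDiff_const.prodMk contDiff_id)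

theorem mk_cont_s (t : ℝ) : ContDiff ℝ ∞ (fun s : ℝ => (⟨s, t⟩ : ℂ)) :=
  Complex.equivRealProdCLM.symm.contDiff.comp (contDiff_id.prodMk contDiff_const)

theorem deriv_t {φ : ℂ → ℂ} (hφ : ContDiff ℝ ∞ φ) (s t : ℝ) :
    deriv (fun t : ℝ => φ ⟨s, t⟩) t = dT φ ⟨s, t⟩ := by
  have h := ((hφ.differentiable (by simp)) (⟨s, t⟩ : ℂ)).hasFDerivAt.comp_hasDerivAt t
    (hasDeriv_t s t)
  exact h.deriv

theorem deriv_s {φ : ℂ → ℂ} (hφ : ContDiff ℝ ∞ φ) (s t : ℝ) :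
    deriv (fun s : ℝ => φ ⟨s, t⟩) s = dS φ ⟨s, t⟩ := by
  have h := ((hφ.differentiable (by simp)) (⟨s, t⟩ : ℂ)).hasFDerivAt.comp_hasDerivAt s
    (hasDeriv_s s t)
  exact h.deriv

theorem gA_nonneg (Φ : ℂ → ℝ) (φ : ℂ → ℂ) (w : ℂ) : 0 ≤ gA Φ φ w := by
  unfold gA
  positivity

end SPREAD

open SPREAD in
theorem spread (h1 : S_L2) : S_SPREAD := by
  intro a Φ φ x ρ hρ hΦ hφ hx
  obtain ⟨s0, hs0⟩ : ∃ s, s = x.re := ⟨_, rfl⟩
  obtain ⟨t0, ht0⟩ : ∃ t, t = x.im := ⟨_, rfl⟩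
  have hsq : sq x ρ = {w : ℂ | s0 - ρ / 2 ≤ w.re ∧ w.re < s0 + ρ / 2 ∧ t0 - ρ / 2 ≤ w.im ∧
      w.im < t0 + ρ / 2} := by
    rw [hs0, ht0]
    rfl
  have hsq' : sq (x + (3 / 8 * ρ : ℝ)) (ρ / 8) = {w : ℂ | s0 + 5 * ρ / 16 ≤ w.re ∧
      w.re < s0 + 7 * ρ / 16 ∧ t0 - ρ / 16 ≤ w.im ∧ w.im < t0 + ρ / 16} := by
    ext w
    have e1 : (x + ((3 / 8 * ρ : ℝ) : ℂ)).re = s0 + 3 / 8 * ρ := by
      rw [Complex.add_re, Complex.ofReal_re, hs0]
    have e2 : (x + ((3 / 8 * ρ : ℝ) : ℂ)).im = t0 := by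
      rw [Complex.add_im, Complex.ofReal_im, ht0, add_zero]
    simp only [Pool.Agent.Helper95.AB.sq, mem_ofPred_eq, e1, e2]
    constructor
    · rintro ⟨h1, h2, h3, h4⟩
      refine ⟨?_, ?_, ?_, ?_⟩ <;> linarith
    · rintro ⟨h1, h2, h3, h4⟩
      refine ⟨?_, ?_, ?_, ?_⟩ <;> linarith
  rw [← hs0] at hx
  obtain ⟨hc, hcS, hcT⟩ := cont_gA hΦ hφ
  have hstrip : ∀ s t : ℝ, s ∈ Icc (s0 - ρ / 2) (s0 + ρ / 2) → (⟨s, t⟩ : ℂ) ∈ strip a := by
    intro s t hs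
    change |s| < a
    have h2 := abs_le.1 (le_refl |s0|)
    rw [abs_lt]
    constructor <;> linarith [hs.1, hs.2]
  have hN : Continuous fun w => ‖φ w‖ ^ 2 := hφ.continuous.norm.pow 2
  have hbig := box (fun w => ‖φ w‖ ^ 2) (a1 := s0 - ρ / 2) (b1 := s0 + ρ / 2)
    (a2 := t0 - ρ / 2) (b2 := t0 + ρ / 2) (by linarith) (by linarith) hN.continuousOn
  have hmid := box (fun w => ‖φ w‖ ^ 2) (a1 := s0 + 5 * ρ / 16) (b1 := s0 + 7 * ρ / 16)
    (a2 := t0 - ρ / 2) (b2 := t0 + ρ / 2) (by linarith) (by linarith) hN.continuousOn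
  have hsml := box (fun w => ‖φ w‖ ^ 2) (a1 := s0 + 5 * ρ / 16) (b1 := s0 + 7 * ρ / 16)
    (a2 := t0 - ρ / 16) (b2 := t0 + ρ / 16) (by linarith) (by linarith) hN.continuousOn
  have hG := box (fun w => gA Φ φ w) (a1 := s0 - ρ / 2) (b1 := s0 + ρ / 2)
    (a2 := t0 - ρ / 2) (b2 := t0 + ρ / 2) (by linarith) (by linarith)
    (hc.mono fun w hw => hstrip w.re w.im hw.1)
  have hGm := box (fun w => gA Φ φ w) (a1 := s0 + 5 * ρ / 16) (b1 := s0 + 7 * ρ / 16)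
    (a2 := t0 - ρ / 2) (b2 := t0 + ρ / 2) (by linarith) (by linarith)
    (hc.mono fun w hw => hstrip w.re w.im ⟨by linarith [hw.1.1], by linarith [hw.1.2]⟩)
  have hlen : t0 + ρ / 2 - (t0 - ρ / 2) = ρ := by ring
  have hlen' : s0 + ρ / 2 - (s0 - ρ / 2) = ρ := by ring
  -- rows in the `t`-direction
  have hrow_t : ∀ s ∈ Icc (s0 - ρ / 2) (s0 + ρ / 2), ∫ t in (t0 - ρ / 2)..(t0 + ρ / 2),
      ‖φ ⟨s, t⟩‖ ^ 2 ≤ 16 * (∫ t in (t0 - ρ / 16)..(t0 + ρ / 16), ‖φ ⟨s, t⟩‖ ^ 2) +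
        2 * ρ ^ 2 * ∫ t in (t0 - ρ / 2)..(t0 + ρ / 2), gA Φ φ ⟨s, t⟩ := by
    intro s hs
    have hmk : Continuous fun t : ℝ => (⟨s, t⟩ : ℂ) := (mk_cont_t s).continuous
    have h := row h1 (f := fun t : ℝ => φ ⟨s, t⟩) (A := fun t => -dS Φ ⟨s, t⟩)
      (E := fun t => gA Φ φ ⟨s, t⟩) (α := t0 - ρ / 2) (β := t0 + ρ / 2) (α' := t0 - ρ / 16)
      (β' := t0 + ρ / 16) (by linarith) (by linarith) (by linarith) (by linarith) (by ring)
      ((hφ.comp (mk_cont_t s)).of_le (by simp))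
      ((hcS.comp hmk.continuousOn fun t _ => hstrip s t hs).neg)
      (hc.comp hmk.continuousOn fun t _ => hstrip s t hs) (fun t _ => by
        rw [deriv_t hφ]
        have e : dT φ (⟨s, t⟩ : ℂ) + Complex.I * ((-dS Φ ⟨s, t⟩ : ℝ) : ℂ) * φ ⟨s, t⟩ =
            dT φ ⟨s, t⟩ - Complex.I * (dS Φ ⟨s, t⟩ : ℝ) * φ ⟨s, t⟩ := by
          push_cast
          ring
        rw [e]
        unfold gA
        exact le_add_of_nonneg_left (by positivity))
    rwa [hlen] at h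
  have hrow_s : ∀ t : ℝ, ∫ s in (s0 - ρ / 2)..(s0 + ρ / 2),
      ‖φ ⟨s, t⟩‖ ^ 2 ≤ 16 * (∫ s in (s0 + 5 * ρ / 16)..(s0 + 7 * ρ / 16), ‖φ ⟨s, t⟩‖ ^ 2) +
        2 * ρ ^ 2 * ∫ s in (s0 - ρ / 2)..(s0 + ρ / 2), gA Φ φ ⟨s, t⟩ := by
    intro t
    have hmk : Continuous fun s : ℝ => (⟨s, t⟩ : ℂ) := (mk_cont_s t).continuous
    have h := row h1 (f := fun s : ℝ => φ ⟨s, t⟩) (A := fun s => dT Φ ⟨s, t⟩)
      (E := fun s => gA Φ φ ⟨s, t⟩) (α := s0 - ρ / 2) (β := s0 + ρ / 2) (α' := s0 + 5 * ρ / 16)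
      (β' := s0 + 7 * ρ / 16) (by linarith) (by linarith) (by linarith) (by linarith) (by ring)
      ((hφ.comp (mk_cont_s t)).of_le (by simp))
      (hcT.comp hmk.continuousOn fun s hs => hstrip s t hs)
      (hc.comp hmk.continuousOn fun s hs => hstrip s t hs) (fun s _ => by
        rw [deriv_s hφ]
        unfold gA
        exact le_add_of_nonneg_right (by positivity))
    rwa [hlen'] at h
  -- the middle strip
  have hM : ∫ s in (s0 + 5 * ρ / 16)..(s0 + 7 * ρ / 16), ∫ t in (t0 - ρ / 2)..(t0 + ρ / 2),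
      ‖φ ⟨s, t⟩‖ ^ 2 ≤ ∫ s in (s0 + 5 * ρ / 16)..(s0 + 7 * ρ / 16),
        (16 * (∫ t in (t0 - ρ / 16)..(t0 + ρ / 16), ‖φ ⟨s, t⟩‖ ^ 2) +
        2 * ρ ^ 2 * ∫ t in (t0 - ρ / 2)..(t0 + ρ / 2), gA Φ φ ⟨s, t⟩) := by
    refine intervalIntegral.integral_mono_on (by linarith) hmid.2.2.1
      ((hsml.2.2.1.const_mul 16).add (hGm.2.2.1.const_mul _)) fun s hs => hrow_t s ?_
    exact ⟨by linarith [hs.1], by linarith [hs.2]⟩
  rw [intervalIntegral.integral_add (hsml.2.2.1.const_mul 16) (hGm.2.2.1.const_mul _),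
    intervalIntegral.integral_const_mul, intervalIntegral.integral_const_mul] at hM
  have hB : ∫ t in (t0 - ρ / 2)..(t0 + ρ / 2), ∫ s in (s0 - ρ / 2)..(s0 + ρ / 2),
      ‖φ ⟨s, t⟩‖ ^ 2 ≤ ∫ t in (t0 - ρ / 2)..(t0 + ρ / 2),
        (16 * (∫ s in (s0 + 5 * ρ / 16)..(s0 + 7 * ρ / 16), ‖φ ⟨s, t⟩‖ ^ 2) +
        2 * ρ ^ 2 * ∫ s in (s0 - ρ / 2)..(s0 + ρ / 2), gA Φ φ ⟨s, t⟩) :=
    intervalIntegral.integral_mono_on (by linarith) hbig.2.2.2
      ((hmid.2.2.2.const_mul 16).add (hG.2.2.2.const_mul _)) fun t _ => hrow_s t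
  rw [intervalIntegral.integral_add (hmid.2.2.2.const_mul 16) (hG.2.2.2.const_mul _),
    intervalIntegral.integral_const_mul, intervalIntegral.integral_const_mul] at hB
  -- the gradient on the middle strip
  have hGG : ∫ s in (s0 + 5 * ρ / 16)..(s0 + 7 * ρ / 16), ∫ t in (t0 - ρ / 2)..(t0 + ρ / 2),
      gA Φ φ ⟨s, t⟩ ≤ ∫ s in (s0 - ρ / 2)..(s0 + ρ / 2), ∫ t in (t0 - ρ / 2)..(t0 + ρ / 2),
      gA Φ φ ⟨s, t⟩ := by
    refine intervalIntegral.integral_mono_interval (by linarith) (by linarith) (by linarith)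
      ?_ hG.2.2.1
    exact Eventually.of_forall fun s => intervalIntegral.integral_nonneg (by linarith)
      fun t _ => gA_nonneg Φ φ _
  rw [hsq, hsq', hbig.2.1, hsml.1]
  rw [← hmid.2.1, hmid.1, ← hG.2.1] at hB
  rw [← hG.1] at hGG
  have hρ2 : 0 ≤ 2 * ρ ^ 2 := by positivity
  have h5 := mul_le_mul_of_nonneg_left hGG hρ2
  linarith

end Pool.Agent.Helper93.AB
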